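import Pool.Agent.Work.MP_327059_nt.AA.Stmts

/-!
# Sets without four elements whose product is a square (Erdős)
-/

set_option autoImplicit false

namespace Pool.Agent.Work.MP_327059_nt.AA

/-- every `1 ≤ n ≤ X` is a product of one of two kinds -/
theorem Count_rep (X n : ℕ) (h1 : 1 ≤ n) (hX : n ≤ X) : ∃ u v : ℕ, n = u * v ∧
    ((u.Prime ∧ X ^ 2 < u ^ 3 ∧ v ^ 3 < X) ∨ (u ^ 3 ≤ X ^ 2 ∧ v ^ 2 ≤ X)) := by
  have hX1 : 1 ≤ X := h1.trans hX
  -- from a factorisation with both factors at most `X ^ (2/3)`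
  have key : ∀ a b : ℕ, n = a * b → a ^ 3 ≤ X ^ 2 → b ^ 3 ≤ X ^ 2 →
      ∃ u v : ℕ, n = u * v ∧
        ((u.Prime ∧ X ^ 2 < u ^ 3 ∧ v ^ 3 < X) ∨ (u ^ 3 ≤ X ^ 2 ∧ v ^ 2 ≤ X)) := by
    intro a b hab ha hb
    rcases le_total a b with h | h
    · refine ⟨b, a, by rw [hab, mul_comm], Or.inr ⟨hb, ?_⟩⟩
      calc a ^ 2 = a * a := pow_two a
        _ ≤ a * b := Nat.mul_le_mul_left _ h
        _ ≤ X := by rw [← hab]; exact hX
    · refine ⟨a, b, hab, Or.inr ⟨ha, ?_⟩⟩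
      calc b ^ 2 = b * b := pow_two b
        _ ≤ a * b := Nat.mul_le_mul_right _ h
        _ ≤ X := by rw [← hab]; exact hX
  have hcube : ∀ a b : ℕ, n = a * b → X ≤ a ^ 3 → b ^ 3 ≤ X ^ 2 := by
    intro a b hab ha
    have h2 : X * b ^ 3 ≤ X * X ^ 2 := by
      calc X * b ^ 3 ≤ a ^ 3 * b ^ 3 := Nat.mul_le_mul_right _ ha
        _ = n ^ 3 := by rw [hab, mul_pow]
        _ ≤ X ^ 3 := Nat.pow_le_pow_left hX 3
        _ = X * X ^ 2 := by ring
    exact Nat.le_of_mul_le_mul_left h2 hX1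
  by_cases hA : ∃ p : ℕ, p.Prime ∧ p ∣ n ∧ X ^ 2 < p ^ 3
  · obtain ⟨p, hp, ⟨v, hv⟩, hpX⟩ := hA
    refine ⟨p, v, hv, Or.inl ⟨hp, hpX, ?_⟩⟩
    have hv0 : 0 < v := by
      rcases Nat.eq_zero_or_pos v with h | h
      · rw [h, mul_zero] at hv
        omega
      · exact h
    by_contra hcon
    push Not at hcon
    have h2 : X ^ 3 < n ^ 3 := by
      calc X ^ 3 = X ^ 2 * X := by ring
        _ < p ^ 3 * X := Nat.mul_lt_mul_of_pos_right hpX hX1
        _ ≤ p ^ 3 * v ^ 3 := Nat.mul_le_mul_left _ hcon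
        _ = n ^ 3 := by rw [hv, mul_pow]
    exact absurd (Nat.pow_le_pow_left hX 3) (not_le.2 h2)
  push Not at hA
  by_cases hB : n ^ 3 ≤ X ^ 2
  · exact ⟨n, 1, by rw [mul_one], Or.inr ⟨hB, by rw [one_pow]; exact hX1⟩⟩
  by_cases hC : ∃ p : ℕ, p.Prime ∧ p ∣ n ∧ X ≤ p ^ 3
  · obtain ⟨p, hp, ⟨v, hv⟩, hpX⟩ := hC
    exact key p v hv (hA p hp ⟨v, hv⟩) (hcube p v hv hpX)
  push Not at hC
  -- the minimal divisor that is at least `X ^ (1/3)`
  have hex : ∃ d : ℕ, d ∣ n ∧ X ≤ d ^ 3 := by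
    refine ⟨n, dvd_rfl, ?_⟩
    have : X ≤ X ^ 2 := by nlinarith
    omega
  obtain ⟨hd1, hd2⟩ := Nat.find_spec hex
  have hmin : ∀ m : ℕ, m < Nat.find hex → ¬ (m ∣ n ∧ X ≤ m ^ 3) := fun m hm => Nat.find_min hex hm
  obtain ⟨d, hd⟩ : ∃ d : ℕ, d = Nat.find hex := ⟨_, rfl⟩
  rw [← hd] at hd1 hd2 hmin
  have hdne : d ≠ 1 := by
    rintro rfl
    have h3 : X = 1 := by
      rw [one_pow] at hd2
      omega
    apply hB
    have : n = 1 := by omega
    rw [this, h3]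
    norm_num
  obtain ⟨p, hp, hpd⟩ := Nat.exists_prime_and_dvd hdne
  obtain ⟨d', hd'⟩ := hpd
  have hd0 : 0 < d := by
    rcases Nat.eq_zero_or_pos d with h | h
    · rw [h, zero_dvd_iff] at hd1
      omega
    · exact h
  have hd'0 : 0 < d' := by
    rcases Nat.eq_zero_or_pos d' with h | h
    · rw [h, mul_zero] at hd'
      omega
    · exact h
  have hlt : d' < d := by
    rw [hd']
    exact lt_mul_of_one_lt_left hd'0 hp.one_lt
  have hd'n : d' ∣ n := (Dvd.intro_left p hd'.symm).trans hd1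
  have h4 : d' ^ 3 < X := by
    by_contra hcon
    push Not at hcon
    exact hmin d' hlt ⟨hd'n, hcon⟩
  have h5 : p ^ 3 < X := hC p hp ((Dvd.intro d' hd'.symm).trans hd1)
  have h6 : d ^ 3 ≤ X ^ 2 := by
    calc d ^ 3 = p ^ 3 * d' ^ 3 := by rw [hd', mul_pow]
      _ ≤ X * X := Nat.mul_le_mul h5.le h4.le
      _ = X ^ 2 := by ring
  obtain ⟨e, he⟩ := hd1
  exact key d e he h6 (hcube d e he hd2)

/-- counting cherries in a graph without 4-cycles -/
theorem Count_cherry (B U V : Finset ℕ) (f : ℕ → ℕ × ℕ) (hf : ∀ n ∈ B, n = (f n).1 * (f n).2)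
    (hU : ∀ n ∈ B, (f n).1 ∈ U) (hV : ∀ n ∈ B, (f n).2 ∈ V)
    (hB : ∀ a ∈ B, ∀ b ∈ B, ∀ c ∈ B, ∀ d ∈ B, a ≠ b → a ≠ c → a ≠ d → b ≠ c → b ≠ d → c ≠ d →
      ¬ IsSquare (a * b * c * d)) :
    B.card = ∑ u ∈ U, (B.filter fun n => (f n).1 = u).card ∧
    ∑ u ∈ U, ((B.filter fun n => (f n).1 = u).card).choose 2 ≤ V.card.choose 2 := by
  classical
  constructor
  · exact Finset.card_eq_sum_card_fiberwise (fun n hn => hU n hn)
  · -- neighbourhoods
    let N : ℕ → Finset ℕ := fun u => (B.filter fun n => (f n).1 = u).image fun n => (f n).2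
    have hN : ∀ u v, v ∈ N u ↔ ∃ n ∈ B, (f n).1 = u ∧ (f n).2 = v := by
      intro u v
      simp only [N, Finset.mem_image, Finset.mem_filter]
      constructor
      · rintro ⟨n, ⟨h1, h2⟩, h3⟩
        exact ⟨n, h1, h2, h3⟩
      · rintro ⟨n, h1, h2, h3⟩
        exact ⟨n, ⟨h1, h2⟩, h3⟩
    have hcard : ∀ u, (N u).card = (B.filter fun n => (f n).1 = u).card := by
      intro u
      apply Finset.card_image_of_injOn
      intro n hn m hm hnm
      rw [Finset.mem_coe, Finset.mem_filter] at hn hm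
      simp only at hnm
      rw [hf n hn.1, hf m hm.1, hn.2, hm.2, hnm]
    have hsum : ∑ u ∈ U, ((B.filter fun n => (f n).1 = u).card).choose 2 =
        ∑ u ∈ U, ((N u).powersetCard 2).card := by
      refine Finset.sum_congr rfl fun u _ => ?_
      rw [Finset.card_powersetCard, hcard]
    rw [hsum, ← Finset.card_biUnion, ← Finset.card_powersetCard]
    · apply Finset.card_le_card
      intro s hs
      rw [Finset.mem_biUnion] at hs
      obtain ⟨u, -, hs⟩ := hs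
      rw [Finset.mem_powersetCard] at hs ⊢
      refine ⟨fun v hv => ?_, hs.2⟩
      obtain ⟨n, hn, -, rfl⟩ := (hN u v).1 (hs.1 hv)
      exact hV n hn
    · intro u1 _ u2 _ hne
      rw [Function.onFun, Finset.disjoint_left]
      intro s hs1 hs2
      rw [Finset.mem_powersetCard] at hs1 hs2
      obtain ⟨v1, v2, hv, rfl⟩ := Finset.card_eq_two.1 hs1.2
      obtain ⟨n11, h11, a11, b11⟩ := (hN u1 v1).1 (hs1.1 (by simp))
      obtain ⟨n12, h12, a12, b12⟩ := (hN u1 v2).1 (hs1.1 (by simp))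
      obtain ⟨n21, h21, a21, b21⟩ := (hN u2 v1).1 (hs2.1 (by simp))
      obtain ⟨n22, h22, a22, b22⟩ := (hN u2 v2).1 (hs2.1 (by simp))
      have hd : ∀ n m : ℕ, ((f n).1 ≠ (f m).1 ∨ (f n).2 ≠ (f m).2) → n ≠ m := by
        rintro n m h rfl
        rcases h with h | h <;> exact h rfl
      refine hB n11 h11 n12 h12 n21 h21 n22 h22 (hd _ _ (Or.inr ?_)) (hd _ _ (Or.inl ?_))
        (hd _ _ (Or.inl ?_)) (hd _ _ (Or.inl ?_)) (hd _ _ (Or.inl ?_)) (hd _ _ (Or.inr ?_)) ?_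
      · rw [b11, b12]; exact hv
      · rw [a11, a21]; exact hne
      · rw [a11, a22]; exact hne
      · rw [a12, a21]; exact hne
      · rw [a12, a22]; exact hne
      · rw [b21, b22]; exact hv
      · refine ⟨u1 * u2 * v1 * v2, ?_⟩
        rw [hf n11 h11, hf n12 h12, hf n21 h21, hf n22 h22, a11, a12, a21, a22, b11, b12, b21, b22]
        ring

/-- the number of `v ≥ 1` with `v ^ a ≤ Y` -/
theorem Count_root (a : ℕ) (ha : 0 < a) (Y : ℕ) (V : Finset ℕ) (hV : ∀ v ∈ V, 1 ≤ v ∧ v ^ a ≤ Y) :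
    (V.card : ℝ) ≤ (Y : ℝ) ^ (1 / (a : ℝ)) := by
  have hle : ∀ v ∈ V, (v : ℝ) ≤ (Y : ℝ) ^ (1 / (a : ℝ)) := by
    intro v hv
    have h1 : ((v : ℝ) ^ a) ≤ (Y : ℝ) := by exact_mod_cast (hV v hv).2
    have h2 : (v : ℝ) = ((v : ℝ) ^ a) ^ (1 / (a : ℝ)) := by
      rw [← Real.rpow_natCast, ← Real.rpow_mul (Nat.cast_nonneg v)]
      have : (a : ℝ) * (1 / (a : ℝ)) = 1 := by
        field_simp
      rw [this, Real.rpow_one]
    rw [h2]
    exact Real.rpow_le_rpow (by positivity) h1 (by positivity)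
  have hsub : V ⊆ Finset.Icc 1 ⌊(Y : ℝ) ^ (1 / (a : ℝ))⌋₊ := by
    intro v hv
    rw [Finset.mem_Icc]
    exact ⟨(hV v hv).1, Nat.le_floor (hle v hv)⟩
  have h1 := Finset.card_le_card hsub
  rw [Nat.card_Icc, Nat.add_sub_cancel] at h1
  calc (V.card : ℝ) ≤ (⌊(Y : ℝ) ^ (1 / (a : ℝ))⌋₊ : ℝ) := by exact_mod_cast h1
    _ ≤ (Y : ℝ) ^ (1 / (a : ℝ)) := Nat.floor_le (by positivity)

theorem Count_num (e U V a b : ℝ) (he : 0 ≤ e) (hU0 : 0 ≤ U) (hV : 0 ≤ V) (ha : 0 ≤ a) (hb : 0 ≤ b)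
    (hU : U ≤ a ^ 2) (hVb : V ≤ b) (h : e ^ 2 ≤ U * (V ^ 2 + e)) : e ≤ a ^ 2 + b * a := by
  have h5 : e ^ 2 ≤ a ^ 2 * (b ^ 2 + e) := by
    refine h.trans (mul_le_mul hU ?_ (by positivity) (by positivity))
    have : V ^ 2 ≤ b ^ 2 := pow_le_pow_left₀ hV hVb 2
    linarith
  by_contra hcon
  push Not at hcon
  have hba : 0 ≤ b * a := mul_nonneg hb ha
  have ha2 : 0 ≤ a ^ 2 := sq_nonneg a
  have h6 : b * a < e - a ^ 2 := by linarith
  have h7 : b * a ≤ e := by linarith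
  have h10 : 0 < e := by linarith
  have h8 : (b * a) * (b * a) < e * (e - a ^ 2) :=
    lt_of_le_of_lt (mul_le_mul_of_nonneg_right h7 hba) (mul_lt_mul_of_pos_left h6 h10)
  have h9 : (b * a) * (b * a) = a ^ 2 * b ^ 2 := by ring
  have h11 : e * (e - a ^ 2) = e ^ 2 - a ^ 2 * e := by ring
  have h12 : a ^ 2 * (b ^ 2 + e) = a ^ 2 * b ^ 2 + a ^ 2 * e := by ring
  rw [h9, h11] at h8
  rw [h12] at h5
  linarith

theorem pr_Count : S_Count := by
  classical
  intro X B hX hB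
  rcases Nat.eq_zero_or_pos X with h0 | hX1
  · have hBe : B = ∅ := by
      rw [Finset.eq_empty_iff_forall_notMem]
      intro n hn
      have := hX n hn
      omega
    rw [hBe, h0]
    simp only [Finset.card_empty, Nat.cast_zero]
    positivity
  -- choice of the pairs
  have hch : ∀ n : ℕ, ∃ q : ℕ × ℕ, n ∈ B → n = q.1 * q.2 ∧
      ((q.1.Prime ∧ X ^ 2 < q.1 ^ 3 ∧ q.2 ^ 3 < X) ∨ (q.1 ^ 3 ≤ X ^ 2 ∧ q.2 ^ 2 ≤ X)) := by
    intro n
    by_cases hn : n ∈ B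
    · obtain ⟨u, v, h1, h2⟩ := Count_rep X n (hX n hn).1 (hX n hn).2
      exact ⟨(u, v), fun _ => ⟨h1, h2⟩⟩
    · exact ⟨(0, 0), fun h => absurd h hn⟩
  choose f hf using hch
  obtain ⟨B1, hB1⟩ : ∃ B1 : Finset ℕ, B1 = B.filter fun n => (f n).1.Prime ∧ X ^ 2 < (f n).1 ^ 3 ∧
    (f n).2 ^ 3 < X := ⟨_, rfl⟩
  obtain ⟨B2, hB2⟩ : ∃ B2 : Finset ℕ, B2 = B.filter fun n => ¬ ((f n).1.Prime ∧
    X ^ 2 < (f n).1 ^ 3 ∧ (f n).2 ^ 3 < X) := ⟨_, rfl⟩
  have hcardB : B.card = B1.card + B2.card := by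
    rw [hB1, hB2, Finset.card_filter_add_card_filter_not]
  have hm1 : ∀ n ∈ B1, n ∈ B ∧ n = (f n).1 * (f n).2 ∧ (f n).1.Prime ∧ (f n).2 ^ 3 < X := by
    intro n hn
    rw [hB1, Finset.mem_filter] at hn
    exact ⟨hn.1, (hf n hn.1).1, hn.2.1, hn.2.2.2⟩
  have hm2 : ∀ n ∈ B2, n ∈ B ∧ n = (f n).1 * (f n).2 ∧ (f n).1 ^ 3 ≤ X ^ 2 ∧ (f n).2 ^ 2 ≤ X := by
    intro n hn
    rw [hB2, Finset.mem_filter] at hn
    have h1 := hf n hn.1
    exact ⟨hn.1, h1.1, h1.2.resolve_left hn.2⟩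
  have hpos : ∀ n ∈ B, 1 ≤ (f n).1 ∧ 1 ≤ (f n).2 := by
    intro n hn
    have h1 := (hf n hn).1
    have h2 := (hX n hn).1
    constructor
    · rcases Nat.eq_zero_or_pos (f n).1 with h | h
      · rw [h, zero_mul] at h1; omega
      · exact h
    · rcases Nat.eq_zero_or_pos (f n).2 with h | h
      · rw [h, mul_zero] at h1; omega
      · exact h
  have hsq : ∀ C : Finset ℕ, (∀ n ∈ C, n ∈ B) → ∀ a ∈ C, ∀ b ∈ C, ∀ c ∈ C, ∀ d ∈ C,
      a ≠ b → a ≠ c → a ≠ d → b ≠ c → b ≠ d → c ≠ d → ¬ IsSquare (a * b * c * d) := by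
    intro C hC a ha b hb c hc d hd
    exact hB a (hC a ha) b (hC b hb) c (hC c hc) d (hC d hd)
  have hXr : (1 : ℝ) ≤ (X : ℝ) := by exact_mod_cast hX1
  have hX0 : (0 : ℝ) ≤ (X : ℝ) := by positivity
  have h23 : (X : ℝ) ^ (2 / 3 : ℝ) ≤ (X : ℝ) ^ (5 / 6 : ℝ) :=
    Real.rpow_le_rpow_of_exponent_le hXr (by norm_num)
  -- first kind
  have hfirst : (B1.card : ℝ) ≤ Nat.primeCounting X + (X : ℝ) ^ (2 / 3 : ℝ) / 2 := by
    let U : Finset ℕ := (Finset.range (X + 1)).filter Nat.Prime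
    let V : Finset ℕ := (Finset.range (X + 1)).filter fun v => 1 ≤ v ∧ v ^ 3 ≤ X
    have hUc : U.card = Nat.primeCounting X := by
      simp only [U, Nat.primeCounting, Nat.primeCounting', Nat.count_eq_card_filter_range]
    have hVc : (V.card : ℝ) ≤ (X : ℝ) ^ (1 / ((3 : ℕ) : ℝ)) := by
      refine Count_root 3 (by norm_num) X V ?_
      intro v hv
      exact (Finset.mem_filter.1 hv).2
    obtain ⟨h1, h2⟩ := Count_cherry B1 U V f (fun n hn => (hm1 n hn).2.1)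
      (fun n hn => by
        obtain ⟨h3, h4, h5, h6⟩ := hm1 n hn
        rw [Finset.mem_filter, Finset.mem_range]
        refine ⟨?_, h5⟩
        have h7 : (f n).1 ≤ n := by
          conv_rhs => rw [h4]
          exact Nat.le_mul_of_pos_right _ (hpos n h3).2
        have := (hX n h3).2
        omega)
      (fun n hn => by
        obtain ⟨h3, h4, h5, h6⟩ := hm1 n hn
        rw [Finset.mem_filter, Finset.mem_range]
        refine ⟨?_, (hpos n h3).2, h6.le⟩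
        have h7 : (f n).2 ≤ n := by
          conv_rhs => rw [h4]
          exact Nat.le_mul_of_pos_left _ (hpos n h3).1
        have := (hX n h3).2
        omega)
      (hsq B1 fun n hn => (hm1 n hn).1)
    have h3 : B1.card ≤ U.card + V.card.choose 2 := by
      calc B1.card = ∑ u ∈ U, (B1.filter fun n => (f n).1 = u).card := h1
        _ ≤ ∑ u ∈ U, (1 + ((B1.filter fun n => (f n).1 = u).card).choose 2) := by
            refine Finset.sum_le_sum fun u _ => ?_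
            rcases Nat.lt_or_ge (B1.filter fun n => (f n).1 = u).card 2 with h | h
            · omega
            · obtain ⟨k, hk⟩ := Nat.exists_eq_add_of_le h
              rw [hk, Nat.choose_two_right]
              have : 2 * (1 + k) ≤ (2 + k) * (2 + k - 1) := by
                have : 2 + k - 1 = 1 + k := by omega
                rw [this]
                exact Nat.mul_le_mul_right _ (by omega)
              omega
        _ = U.card + ∑ u ∈ U, ((B1.filter fun n => (f n).1 = u).card).choose 2 := by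
            rw [Finset.sum_add_distrib, Finset.sum_const, smul_eq_mul, mul_one]
        _ ≤ U.card + V.card.choose 2 := Nat.add_le_add_left h2 _
    have h4 : ((V.card.choose 2 : ℕ) : ℝ) ≤ (X : ℝ) ^ (2 / 3 : ℝ) / 2 := by
      rw [Nat.cast_choose_two]
      have h5 : (V.card : ℝ) * ((V.card : ℝ) - 1) ≤ (V.card : ℝ) * (V.card : ℝ) := by
        have : (0 : ℝ) ≤ V.card := Nat.cast_nonneg _
        nlinarith
      have h6 : (V.card : ℝ) * (V.card : ℝ) ≤ (X : ℝ) ^ (2 / 3 : ℝ) := by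
        calc (V.card : ℝ) * (V.card : ℝ) ≤ (X : ℝ) ^ (1 / ((3 : ℕ) : ℝ)) *
              (X : ℝ) ^ (1 / ((3 : ℕ) : ℝ)) :=
              mul_le_mul hVc hVc (Nat.cast_nonneg _) (by positivity)
          _ = (X : ℝ) ^ (2 / 3 : ℝ) := by
              rw [← Real.rpow_add (by positivity)]
              norm_num
      linarith
    calc (B1.card : ℝ) ≤ ((U.card + V.card.choose 2 : ℕ) : ℝ) := by exact_mod_cast h3
      _ = (U.card : ℝ) + ((V.card.choose 2 : ℕ) : ℝ) := by push_cast; ring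
      _ ≤ Nat.primeCounting X + (X : ℝ) ^ (2 / 3 : ℝ) / 2 := by rw [hUc]; linarith
  -- second kind
  have hsecond : (B2.card : ℝ) ≤ (X : ℝ) ^ (2 / 3 : ℝ) + (X : ℝ) ^ (5 / 6 : ℝ) := by
    let U : Finset ℕ := (Finset.range (X + 1)).filter fun u => 1 ≤ u ∧ u ^ 3 ≤ X ^ 2
    let V : Finset ℕ := (Finset.range (X + 1)).filter fun v => 1 ≤ v ∧ v ^ 2 ≤ X
    have hUc : (U.card : ℝ) ≤ (X : ℝ) ^ (2 / 3 : ℝ) := by
      have h := Count_root 3 (by norm_num) (X ^ 2) U (by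
        intro v hv
        exact (Finset.mem_filter.1 hv).2)
      have h' : (((X ^ 2 : ℕ) : ℝ)) ^ (1 / ((3 : ℕ) : ℝ)) = (X : ℝ) ^ (2 / 3 : ℝ) := by
        push_cast
        rw [← Real.rpow_natCast, ← Real.rpow_mul hX0]
        norm_num
      rwa [h'] at h
    have hVc : (V.card : ℝ) ≤ (X : ℝ) ^ (1 / ((2 : ℕ) : ℝ)) := by
      refine Count_root 2 (by norm_num) X V ?_
      intro v hv
      exact (Finset.mem_filter.1 hv).2
    obtain ⟨h1, h2⟩ := Count_cherry B2 U V f (fun n hn => (hm2 n hn).2.1)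
      (fun n hn => by
        obtain ⟨h3, h4, h5, h6⟩ := hm2 n hn
        rw [Finset.mem_filter, Finset.mem_range]
        refine ⟨?_, (hpos n h3).1, h5⟩
        have h7 : (f n).1 ≤ n := by
          conv_rhs => rw [h4]
          exact Nat.le_mul_of_pos_right _ (hpos n h3).2
        have := (hX n h3).2
        omega)
      (fun n hn => by
        obtain ⟨h3, h4, h5, h6⟩ := hm2 n hn
        rw [Finset.mem_filter, Finset.mem_range]
        refine ⟨?_, (hpos n h3).2, h6⟩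
        have h7 : (f n).2 ≤ n := by
          conv_rhs => rw [h4]
          exact Nat.le_mul_of_pos_left _ (hpos n h3).1
        have := (hX n h3).2
        omega)
      (hsq B2 fun n hn => (hm2 n hn).1)
    -- squares of the degrees
    have h3 : (∑ u ∈ U, ((B2.filter fun n => (f n).1 = u).card : ℝ) ^ 2) ≤
        (V.card : ℝ) ^ 2 + B2.card := by
      have h4 : ∀ m : ℕ, (m : ℝ) ^ 2 = 2 * ((m.choose 2 : ℕ) : ℝ) + m := by
        intro m
        rw [Nat.cast_choose_two]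
        ring
      have h5 : (∑ u ∈ U, ((B2.filter fun n => (f n).1 = u).card : ℝ) ^ 2) =
          2 * ((∑ u ∈ U, ((B2.filter fun n => (f n).1 = u).card).choose 2 : ℕ) : ℝ) + B2.card := by
        rw [Finset.sum_congr rfl fun u _ => h4 _, Finset.sum_add_distrib, ← Finset.mul_sum]
        rw [h1]
        push_cast
        ring
      have h6 : ((∑ u ∈ U, ((B2.filter fun n => (f n).1 = u).card).choose 2 : ℕ) : ℝ) ≤
          ((V.card.choose 2 : ℕ) : ℝ) := by exact_mod_cast h2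
      rw [h5]
      rw [Nat.cast_choose_two] at h6
      have h7 : (0 : ℝ) ≤ V.card := Nat.cast_nonneg _
      nlinarith
    have h4 : (B2.card : ℝ) ^ 2 ≤ (U.card : ℝ) * ((V.card : ℝ) ^ 2 + B2.card) := by
      have h5 : (B2.card : ℝ) = ∑ u ∈ U, ((B2.filter fun n => (f n).1 = u).card : ℝ) := by
        rw [← Nat.cast_sum, ← h1]
      have h6 := sq_sum_le_card_mul_sum_sq (s := U)
        (f := fun u => ((B2.filter fun n => (f n).1 = u).card : ℝ))
      rw [← h5] at h6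
      exact h6.trans (mul_le_mul_of_nonneg_left h3 (Nat.cast_nonneg _))
    have hr : ((X : ℝ) ^ (1 / 3 : ℝ)) ^ 2 = (X : ℝ) ^ (2 / 3 : ℝ) := by
      rw [← Real.rpow_natCast, ← Real.rpow_mul hX0]
      norm_num
    have hr2 : (X : ℝ) ^ (1 / 2 : ℝ) * (X : ℝ) ^ (1 / 3 : ℝ) = (X : ℝ) ^ (5 / 6 : ℝ) := by
      rw [← Real.rpow_add (by positivity)]
      norm_num
    have hVc' : (V.card : ℝ) ≤ (X : ℝ) ^ (1 / 2 : ℝ) := by
      have : (1 / ((2 : ℕ) : ℝ)) = (1 / 2 : ℝ) := by norm_num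
      rwa [this] at hVc
    rw [← hr] at hUc
    rw [← hr, ← hr2]
    exact Count_num _ _ _ _ _ (Nat.cast_nonneg _) (Nat.cast_nonneg _) (Nat.cast_nonneg _)
      (Real.rpow_nonneg hX0 _) (Real.rpow_nonneg hX0 _) hUc hVc' h4
  have hfin : (B.card : ℝ) = B1.card + B2.card := by
    rw [hcardB]
    push_cast
    ring
  rw [hfin]
  have : (0 : ℝ) ≤ (X : ℝ) ^ (5 / 6 : ℝ) := by positivity
  linarith

end Pool.Agent.Work.MP_327059_nt.AA
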