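import Pool.Agent.Work.MP_327059_nt.AA.Stmts
import Pool.Agent.Work.LW.LW

/-!
# Almost all quadratic fields: the final assembly
-/

set_option autoImplicit false

namespace Pool.Agent.Work.MP_327059_nt.AA

open Polynomial

/-! ### Numbers algebraic over `ℚ(θ)` -/

theorem FinA_mul {θ x y : ℂ} (hx : Alg θ x) (hy : Alg θ y) : Alg θ (x * y) :=
  IsAlgebraic.mul hx hy

theorem FinA_inv {θ x : ℂ} (hx : Alg θ x) : Alg θ x⁻¹ := IsAlgebraic.inv hx

theorem FinA_self (θ : ℂ) : Alg θ θ :=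
  isAlgebraic_algebraMap (⟨θ, IntermediateField.mem_adjoin_simple_self ℚ θ⟩ :
    IntermediateField.adjoin ℚ {θ})

theorem FinA_ofQ {θ x : ℂ} (hx : IsAlgebraic ℚ x) : Alg θ x :=
  IsAlgebraic.tower_top _ hx

theorem FinA_zpow {θ x : ℂ} (h : Alg θ x) (n : ℤ) : Alg θ (x ^ n) := by
  obtain ⟨m, rfl | rfl⟩ := n.eq_nat_or_neg
  · rw [zpow_natCast]
    exact IsAlgebraic.pow h m
  · rw [zpow_neg, zpow_natCast]
    exact FinA_inv (IsAlgebraic.pow h m)

/-- rational powers -/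
theorem FinA_qpow {θ z : ℂ} (q : ℚ) (h : Alg θ (Complex.exp z)) :
    Alg θ (Complex.exp (q * z)) := by
  have h1 : Complex.exp (q * z) ^ q.den = Complex.exp z ^ q.num := by
    rw [← Complex.exp_nat_mul, ← Complex.exp_int_mul]
    congr 1
    have h2 : ((q.den : ℚ) : ℂ) * (q : ℂ) = ((q.num : ℚ) : ℂ) := by
      rw [← Rat.cast_mul, Rat.den_mul_eq_num]
    push_cast at h2
    rw [← mul_assoc, h2]
  have h3 : Alg θ (Complex.exp (q * z) ^ q.den) := by
    rw [h1]
    exact FinA_zpow h _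
  exact IsAlgebraic.of_pow q.den_pos h3

/-- square part of an integer -/
theorem FinA_sqfree (n : ℤ) (hn : n ≠ 0) :
    ∃ m D : ℤ, m ≠ 0 ∧ Squarefree D ∧ n = m ^ 2 * D := by
  obtain ⟨a, b, hab, ha⟩ := Nat.sq_mul_squarefree n.natAbs
  have hb : b ≠ 0 := by
    rintro rfl
    simp at hab
    omega
  rcases Int.natAbs_eq n with h | h
  · refine ⟨b, a, by exact_mod_cast hb, Int.squarefree_natCast.2 ha, ?_⟩
    rw [h, ← hab]
    push_cast
    ring
  · refine ⟨b, -a, by exact_mod_cast hb, ?_, ?_⟩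
    · rw [← Int.squarefree_natAbs, Int.natAbs_neg, Int.natAbs_natCast]
      exact ha
    · rw [h, ← hab]
      push_cast
      ring

/-- quadratic numbers -/
theorem FinA_quad (β : ℂ) (hβ : (minpoly ℚ β).natDegree = 2) :
    ∃ (a b : ℚ) (D : ℤ) (s : ℂ), b ≠ 0 ∧ Squarefree D ∧ D ≠ 1 ∧ s ^ 2 = D ∧ β = a + b * s := by
  have hint : IsIntegral ℚ β := by
    by_contra h
    rw [minpoly.eq_zero h] at hβ
    simp at hβ
  have hrat : ∀ q : ℚ, β ≠ q := by
    intro q hq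
    have : minpoly ℚ β = X - C q := by
      rw [hq]
      exact minpoly.eq_X_sub_C ℂ q
    rw [this, natDegree_X_sub_C] at hβ
    omega
  set P := minpoly ℚ β with hP
  have hlead : P.coeff 2 = 1 := by
    have := minpoly.monic hint
    rw [← hβ]
    exact this
  have heval : ((P.coeff 0 : ℚ) : ℂ) + (P.coeff 1 : ℚ) * β + β ^ 2 = 0 := by
    have h1 := minpoly.aeval ℚ β
    rw [← hP, aeval_eq_sum_range, hβ] at h1
    simp only [Finset.sum_range_succ, Finset.sum_range_zero, hlead, Rat.smul_def] at h1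
    simp only [pow_zero, mul_one, pow_one, Rat.cast_one, one_mul, zero_add] at h1
    exact h1
  set p : ℚ := P.coeff 1
  set r : ℚ := P.coeff 0
  -- the discriminant
  set Δ : ℚ := p ^ 2 / 4 - r with hΔ
  have ht : (β + p / 2) ^ 2 = (Δ : ℂ) := by
    rw [hΔ]
    push_cast
    linear_combination heval
  have hΔ0 : Δ ≠ 0 := by
    intro h0
    rw [h0] at ht
    have h1 : β + p / 2 = 0 := by
      have : (β + p / 2) ^ 2 = 0 := by rw [ht]; simp
      exact pow_eq_zero_iff (two_ne_zero) |>.1 this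
    apply hrat (-(p / 2))
    push_cast
    linear_combination h1
  obtain ⟨m, D, hm, hD, hmD⟩ := FinA_sqfree (Δ.num * Δ.den)
    (mul_ne_zero (Rat.num_ne_zero.2 hΔ0) (by exact_mod_cast Δ.den_pos.ne'))
  have hden : ((Δ.den : ℤ) : ℂ) ≠ 0 := by exact_mod_cast Δ.den_pos.ne'
  have hmC : (m : ℂ) ≠ 0 := by exact_mod_cast hm
  have hΔden : (Δ : ℂ) * ((Δ.den : ℤ) : ℂ) = ((Δ.num : ℤ) : ℂ) := by
    have := Rat.mul_den_eq_num Δ
    exact_mod_cast congrArg (fun x : ℚ => (x : ℂ)) this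
  have hs : ((β + p / 2) * ((Δ.den : ℤ) : ℂ) / m) ^ 2 = (D : ℂ) := by
    have h1 : ((Δ.num : ℤ) : ℂ) * ((Δ.den : ℤ) : ℂ) = (m : ℂ) ^ 2 * D := by exact_mod_cast hmD
    rw [div_pow, mul_pow, ht, div_eq_iff (pow_ne_zero 2 hmC)]
    linear_combination h1 + ((Δ.den : ℤ) : ℂ) * hΔden
  refine ⟨-(p / 2), m / Δ.den, D, (β + p / 2) * ((Δ.den : ℤ) : ℂ) / m, ?_, hD, ?_, hs, ?_⟩
  · exact div_ne_zero (by exact_mod_cast hm) (by exact_mod_cast Δ.den_pos.ne')
  · rintro rfl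
    have h1 : ((β + p / 2) * ((Δ.den : ℤ) : ℂ) / m - 1) *
        ((β + p / 2) * ((Δ.den : ℤ) : ℂ) / m + 1) = 0 := by
      have : ((β + p / 2) * ((Δ.den : ℤ) : ℂ) / m) ^ 2 = 1 := by rw [hs]; norm_num
      linear_combination this
    rcases mul_eq_zero.1 h1 with h2 | h2
    · apply hrat (m / Δ.den - p / 2)
      have h3 : (β + p / 2) * ((Δ.den : ℤ) : ℂ) = m := by
        have : (β + p / 2) * ((Δ.den : ℤ) : ℂ) / m = 1 := by linear_combination h2
        rwa [div_eq_one_iff_eq hmC] at this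
      push_cast
      have h4 : β + p / 2 = m / ((Δ.den : ℤ) : ℂ) := by
        rw [eq_div_iff hden]; exact h3
      push_cast at h4
      linear_combination h4
    · apply hrat (-(m / Δ.den) - p / 2)
      have h3 : (β + p / 2) * ((Δ.den : ℤ) : ℂ) = -m := by
        have : (β + p / 2) * ((Δ.den : ℤ) : ℂ) / m = -1 := by linear_combination h2
        rw [div_eq_iff hmC] at this
        rw [this]; ring
      push_cast
      have h4 : β + p / 2 = -m / ((Δ.den : ℤ) : ℂ) := by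
        rw [eq_div_iff hden]; exact h3
      push_cast at h4
      linear_combination h4
  · push_cast
    have hden' : ((Δ.den : ℕ) : ℂ) ≠ 0 := by exact_mod_cast hden
    field_simp
    ring

/-- the exceptional set -/
def FinA_B (l : ℂ) : Set ℤ :=
  {D | Squarefree D ∧ D ≠ 1 ∧ ∃ s : ℂ, s ^ 2 = D ∧ Alg l (Complex.exp (s * l))}

theorem FinA_algSqrt {D : ℤ} {s : ℂ} (h : s ^ 2 = D) : IsAlgebraic ℚ s := by
  apply IsAlgebraic.of_pow (n := 2) two_pos
  rw [h]
  exact isAlgebraic_intCast D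

theorem FinA_core (h1 : S_T23) (h3 : S_Sqrt) {l : ℂ} (hl : l ≠ 0) (hlt : Transcendental ℚ l)
    (D : Fin 3 → ℤ) (s : Fin 3 → ℂ) (hinj : Function.Injective D) (hD : ∀ i, Squarefree (D i))
    (hs : ∀ i, s i ^ 2 = D i) (halg : ∀ i, Alg l (Complex.exp (s i * l)))
    (hlast : Alg l (Complex.exp (s 0 * s 1 * (s 2 * l)))) : False := by
  obtain ⟨hind, hirr⟩ := h3 D s hD hinj hs
  refine h1 l (s 0 * s 1) (fun j => s j * l) hlt hirr ?_ ?_ ?_ ?_ ?_
  · rw [Fintype.linearIndependent_iff] at hind ⊢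
    intro g hg
    apply hind g
    have h5 : (∑ i, g i • s i) * l = 0 := by
      rw [Finset.sum_mul, ← hg]
      exact Finset.sum_congr rfl fun i _ => by rw [smul_mul_assoc]
    rcases mul_eq_zero.1 h5 with h6 | h6
    · exact h6
    · exact absurd h6 hl
  · exact FinA_mul (FinA_ofQ (FinA_algSqrt (hs 0))) (FinA_ofQ (FinA_algSqrt (hs 1)))
  · intro j
    exact FinA_mul (FinA_ofQ (FinA_algSqrt (hs j))) (FinA_self l)
  · intro j
    exact halg j
  · intro j
    fin_cases j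
    · have h5 : s 0 * s 1 * (s 0 * l) = ((D 0 : ℚ) : ℂ) * (s 1 * l) := by
        have h6 := hs 0
        push_cast
        linear_combination (s 1 * l) * h6
      simp only [Fin.zero_eta, Fin.isValue]
      rw [h5]
      exact FinA_qpow _ (halg 1)
    · have h5 : s 0 * s 1 * (s 1 * l) = ((D 1 : ℚ) : ℂ) * (s 0 * l) := by
        have h6 := hs 1
        push_cast
        linear_combination (s 0 * l) * h6
      simp only [Fin.mk_one, Fin.isValue]
      rw [h5]
      exact FinA_qpow _ (halg 0)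
    · exact hlast

theorem FinA_inj {a b c : ℤ} (hab : a ≠ b) (hac : a ≠ c) (hbc : b ≠ c) :
    Function.Injective ![a, b, c] := by
  intro i j hij
  fin_cases i <;> fin_cases j <;> simp_all

theorem FinA_three (h1 : S_T23) (h3 : S_Sqrt) {l : ℂ} (hl : l ≠ 0) (hlt : Transcendental ℚ l)
    (hexp : IsAlgebraic ℚ (Complex.exp l)) {a b c : ℤ} (ha : a ∈ FinA_B l) (hb : b ∈ FinA_B l)
    (hc : c ∈ FinA_B l) (hab : a ≠ b) (hac : a ≠ c) (hbc : b ≠ c) : ¬ IsSquare (a * b * c) := by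
  rintro ⟨m, hm⟩
  obtain ⟨ha1, -, s0, hs0, h0⟩ := ha
  obtain ⟨hb1, -, s1, hs1, h1'⟩ := hb
  obtain ⟨hc1, -, s2, hs2, h2⟩ := hc
  have hmC : (s0 * s1 * s2) ^ 2 = (m : ℂ) ^ 2 := by
    have h5 : ((a : ℂ) * b * c) = (m : ℂ) * m := by exact_mod_cast congrArg (fun x : ℤ => (x : ℂ)) hm
    rw [mul_pow, mul_pow, hs0, hs1, hs2, h5]
    ring
  have hq : ∃ q : ℚ, s0 * s1 * s2 = q := by
    rcases sq_eq_sq_iff_eq_or_eq_neg.1 hmC with h5 | h5
    · exact ⟨m, by rw [h5]; push_cast; rfl⟩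
    · exact ⟨-m, by rw [h5]; push_cast; rfl⟩
  obtain ⟨q, hq⟩ := hq
  refine FinA_core h1 h3 hl hlt ![a, b, c] ![s0, s1, s2] (FinA_inj hab hac hbc) ?_ ?_ ?_ ?_
  · intro i
    fin_cases i
    · exact ha1
    · exact hb1
    · exact hc1
  · intro i
    fin_cases i
    · exact hs0
    · exact hs1
    · exact hs2
  · intro i
    fin_cases i
    · exact h0
    · exact h1'
    · exact h2
  · have h5 : s0 * s1 * (s2 * l) = (q : ℂ) * l := by rw [← hq]; ring
    simp only [Matrix.cons_val_zero, Matrix.cons_val_one, Matrix.cons_val]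
    rw [h5]
    exact FinA_qpow q (FinA_ofQ hexp)

theorem FinA_four (h1 : S_T23) (h3 : S_Sqrt) {l : ℂ} (hl : l ≠ 0) (hlt : Transcendental ℚ l)
    {a b c d : ℤ} (ha : a ∈ FinA_B l) (hb : b ∈ FinA_B l)
    (hc : c ∈ FinA_B l) (hd : d ∈ FinA_B l) (hab : a ≠ b) (hac : a ≠ c) (hbc : b ≠ c) :
    ¬ IsSquare (a * b * c * d) := by
  rintro ⟨m, hm⟩
  obtain ⟨ha1, -, s0, hs0, h0⟩ := ha
  obtain ⟨hb1, -, s1, hs1, h1'⟩ := hb
  obtain ⟨hc1, -, s2, hs2, h2⟩ := hc
  obtain ⟨hd1, -, s3, hs3, h3'⟩ := hd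
  have hd0 : (d : ℂ) ≠ 0 := by exact_mod_cast hd1.ne_zero
  have hmC : (s0 * s1 * s2 * s3) ^ 2 = (m : ℂ) ^ 2 := by
    have h5 : ((a : ℂ) * b * c * d) = (m : ℂ) * m := by
      exact_mod_cast congrArg (fun x : ℤ => (x : ℂ)) hm
    rw [mul_pow, mul_pow, mul_pow, hs0, hs1, hs2, hs3, h5]
    ring
  have hq : ∃ q : ℚ, s0 * s1 * s2 * s3 = q := by
    rcases sq_eq_sq_iff_eq_or_eq_neg.1 hmC with h5 | h5
    · exact ⟨m, by rw [h5]; push_cast; rfl⟩
    · exact ⟨-m, by rw [h5]; push_cast; rfl⟩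
  obtain ⟨q, hq⟩ := hq
  refine FinA_core h1 h3 hl hlt ![a, b, c] ![s0, s1, s2] (FinA_inj hab hac hbc) ?_ ?_ ?_ ?_
  · intro i
    fin_cases i
    · exact ha1
    · exact hb1
    · exact hc1
  · intro i
    fin_cases i
    · exact hs0
    · exact hs1
    · exact hs2
  · intro i
    fin_cases i
    · exact h0
    · exact h1'
    · exact h2
  · have h5 : s0 * s1 * (s2 * l) = ((q / d : ℚ) : ℂ) * (s3 * l) := by
      push_cast
      rw [← hq]
      field_simp
      linear_combination (-(s0 * s1 * s2)) * hs3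
    simp only [Matrix.cons_val_zero, Matrix.cons_val_one, Matrix.cons_val]
    rw [h5]
    exact FinA_qpow _ h3'

theorem FinA_count (h4 : S_Count) (B : Set ℤ) (h0 : (0 : ℤ) ∉ B)
    (hB : ∀ a ∈ B, ∀ b ∈ B, ∀ c ∈ B, ∀ d ∈ B, a ≠ b → a ≠ c → a ≠ d → b ≠ c → b ≠ d → c ≠ d →
      ¬ IsSquare (a * b * c * d)) (X : ℕ) :
    ((B ∩ Set.Icc (-X : ℤ) X).ncard : ℝ) ≤
      2 * Nat.primeCounting X + 6 * (X : ℝ) ^ (5 / 6 : ℝ) := by
  classical
  have key : ∀ ε : ℤ, ε * ε = 1 →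
      (((Finset.Icc 1 X).filter (fun n : ℕ => ε * (n : ℤ) ∈ B)).card : ℝ) ≤
        Nat.primeCounting X + 3 * (X : ℝ) ^ (5 / 6 : ℝ) := by
    intro ε hε
    have hε0 : ε ≠ 0 := by
      rintro rfl
      simp at hε
    apply h4 X
    · intro n hn
      exact Finset.mem_Icc.1 (Finset.mem_filter.1 hn).1
    · intro a ha b hb c hc d hd hab hac had hbc hbd hcd hsq
      have hne : ∀ x y : ℕ, x ≠ y → ε * (x : ℤ) ≠ ε * (y : ℤ) := by
        intro x y hxy h
        apply hxy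
        exact_mod_cast mul_left_cancel₀ hε0 h
      refine hB _ (Finset.mem_filter.1 ha).2 _ (Finset.mem_filter.1 hb).2 _
        (Finset.mem_filter.1 hc).2 _ (Finset.mem_filter.1 hd).2 (hne _ _ hab) (hne _ _ hac)
        (hne _ _ had) (hne _ _ hbc) (hne _ _ hbd) (hne _ _ hcd) ?_
      obtain ⟨m, hm⟩ := hsq
      refine ⟨m, ?_⟩
      have h5 : (a : ℤ) * b * c * d = m * m := by exact_mod_cast hm
      calc ε * (a : ℤ) * (ε * b) * (ε * c) * (ε * d)
          = (ε * ε) * (ε * ε) * ((a : ℤ) * b * c * d) := by ring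
        _ = m * m := by rw [hε, h5]; ring
  set P := (Finset.Icc 1 X).filter (fun n : ℕ => (1 : ℤ) * (n : ℤ) ∈ B) with hP
  set Q := (Finset.Icc 1 X).filter (fun n : ℕ => (-1 : ℤ) * (n : ℤ) ∈ B) with hQ
  have hsub : B ∩ Set.Icc (-X : ℤ) X ⊆
      ((P.image (fun n : ℕ => (n : ℤ)) ∪ Q.image (fun n : ℕ => -(n : ℤ)) : Finset ℤ) : Set ℤ) := by
    rintro z ⟨hz, hz1⟩
    rw [Set.mem_Icc] at hz1
    have hz0 : z ≠ 0 := by
      rintro rfl
      exact h0 hz
    rw [Finset.coe_union, Finset.coe_image, Finset.coe_image]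
    rcases lt_or_gt_of_ne hz0 with hneg | hpos
    · right
      refine ⟨z.natAbs, ?_, ?_⟩
      · rw [hQ, Finset.mem_coe, Finset.mem_filter, Finset.mem_Icc]
        refine ⟨by omega, ?_⟩
        have : (-1 : ℤ) * (z.natAbs : ℤ) = z := by omega
        rw [this]; exact hz
      · show -(z.natAbs : ℤ) = z
        omega
    · left
      refine ⟨z.natAbs, ?_, ?_⟩
      · rw [hP, Finset.mem_coe, Finset.mem_filter, Finset.mem_Icc]
        refine ⟨by omega, ?_⟩
        have : (1 : ℤ) * (z.natAbs : ℤ) = z := by omega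
        rw [this]; exact hz
      · show (z.natAbs : ℤ) = z
        omega
  have hcard : (B ∩ Set.Icc (-X : ℤ) X).ncard ≤ P.card + Q.card := by
    calc (B ∩ Set.Icc (-X : ℤ) X).ncard
        ≤ ((P.image (fun n : ℕ => (n : ℤ)) ∪ Q.image (fun n : ℕ => -(n : ℤ)) : Finset ℤ) :
            Set ℤ).ncard := Set.ncard_le_ncard hsub (Finset.finite_toSet _)
      _ = (P.image (fun n : ℕ => (n : ℤ)) ∪ Q.image (fun n : ℕ => -(n : ℤ))).card :=
          Set.ncard_coe_finset _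
      _ ≤ (P.image (fun n : ℕ => (n : ℤ))).card + (Q.image (fun n : ℕ => -(n : ℤ))).card :=
          Finset.card_union_le _ _
      _ ≤ P.card + Q.card := Nat.add_le_add Finset.card_image_le Finset.card_image_le
  have hP' := key 1 (by norm_num)
  have hQ' := key (-1) (by norm_num)
  rw [← hP] at hP'
  rw [← hQ] at hQ'
  have h5 : ((B ∩ Set.Icc (-X : ℤ) X).ncard : ℝ) ≤ P.card + Q.card := by exact_mod_cast hcard
  linarith

theorem pr_FinA (h1 : S_T23) (h2 : S_Pair) (h3 : S_Sqrt) (h4 : S_Count) : S_FinalA := by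
  intro l hl hexp
  have hlt : Transcendental ℚ l := by
    intro halg
    exact Pool.Agent.Work.LW.transcendental_exp halg hl hexp
  have hfour : ∀ a ∈ FinA_B l, ∀ b ∈ FinA_B l, ∀ c ∈ FinA_B l, ∀ d ∈ FinA_B l, a ≠ b → a ≠ c →
      a ≠ d → b ≠ c → b ≠ d → c ≠ d → ¬ IsSquare (a * b * c * d) :=
    fun a ha b hb c hc d hd hab hac _ hbc _ _ => FinA_four h1 h3 hl hlt ha hb hc hd hab hac hbc
  refine ⟨FinA_B l, ?_, ?_, ?_, hfour, ?_⟩
  · rintro D ⟨hD1, hD2, -⟩
    exact ⟨hD1, hD2⟩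
  · intro β hβ hB
    rw [h2 l _ hlt]
    intro halg
    obtain ⟨a, b, D, s, hb, hD, hD1, hs, hβs⟩ := FinA_quad β hβ
    have hmem : D ∈ FinA_B l := by
      refine ⟨hD, hD1, s, hs, ?_⟩
      have h5 : Complex.exp (s * l) = Complex.exp (((b⁻¹ : ℚ) : ℂ) * (β * l - a * l)) := by
        congr 1
        have hbC : (b : ℂ) ≠ 0 := by exact_mod_cast hb
        push_cast
        rw [hβs]
        field_simp
        ring
      rw [h5]
      apply FinA_qpow
      rw [Complex.exp_sub, div_eq_mul_inv]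
      exact FinA_mul halg (FinA_inv (FinA_qpow a (FinA_ofQ hexp)))
    apply hB D hmem s hs
    rw [hβs]
    have hsmem : s ∈ IntermediateField.adjoin ℚ {s} := IntermediateField.mem_adjoin_simple_self ℚ s
    have hrat : ∀ q : ℚ, (q : ℂ) ∈ IntermediateField.adjoin ℚ {s} := by
      intro q
      have := (IntermediateField.adjoin ℚ {s}).algebraMap_mem q
      simpa using this
    exact add_mem (hrat a) (mul_mem (hrat b) hsmem)
  · exact fun a ha b hb c hc hab hac hbc => FinA_three h1 h3 hl hlt hexp ha hb hc hab hac hbc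
  · refine FinA_count h4 (FinA_B l) ?_ hfour
    rintro ⟨h0, -⟩
    exact h0.ne_zero rfl

end Pool.Agent.Work.MP_327059_nt.AA
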