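import Pool.Agent.Work.MP_327059_nt.AA.Stmts

/-!
# Square roots of distinct squarefree integers
-/

set_option autoImplicit false

namespace Pool.Agent.Work.MP_327059_nt.AA

theorem Sqrt_nat {a b : ℕ} (ha : Squarefree a) (hb : Squarefree b) (h : IsSquare (a * b)) :
    a = b := by
  have ha0 : a ≠ 0 := ha.ne_zero
  have hb0 : b ≠ 0 := hb.ne_zero
  apply Nat.eq_of_factorization_eq ha0 hb0
  intro p
  obtain ⟨m, hm⟩ := h
  have hm0 : m ≠ 0 := by
    rintro rfl
    simp at hm
    omega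
  have h1 : (a * b).factorization p = a.factorization p + b.factorization p := by
    rw [Nat.factorization_mul ha0 hb0]; rfl
  have h2 : (m * m).factorization p = m.factorization p + m.factorization p := by
    rw [Nat.factorization_mul hm0 hm0]; rfl
  have h3 := ha.natFactorization_le_one p
  have h4 := hb.natFactorization_le_one p
  rw [hm] at h1
  omega

theorem Sqrt_int {a b : ℤ} (ha : Squarefree a) (hb : Squarefree b) (h : IsSquare (a * b)) :
    a = b := by
  have ha0 : a ≠ 0 := ha.ne_zero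
  have hb0 : b ≠ 0 := hb.ne_zero
  have h1 : a.natAbs = b.natAbs := by
    apply Sqrt_nat (Int.squarefree_natAbs.2 ha) (Int.squarefree_natAbs.2 hb)
    obtain ⟨m, hm⟩ := h
    refine ⟨m.natAbs, ?_⟩
    rw [← Int.natAbs_mul, ← Int.natAbs_mul, hm]
  rcases Int.natAbs_eq_natAbs_iff.1 h1 with h2 | h2
  · exact h2
  · exfalso
    obtain ⟨m, hm⟩ := h
    rw [h2] at hm
    have : 0 < b * b := mul_self_pos.2 hb0
    nlinarith [mul_self_nonneg m]

theorem Sqrt_irr {a b : ℤ} {x y : ℂ} (ha : Squarefree a) (hb : Squarefree b) (hab : a ≠ b)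
    (hx : x ^ 2 = a) (hy : y ^ 2 = b) (q : ℚ) : x * y ≠ q := by
  intro h
  apply hab
  apply Sqrt_int ha hb
  have h1 : ((a * b : ℤ) : ℂ) = ((q * q : ℚ) : ℂ) := by
    push_cast
    rw [← h, ← hx, ← hy]
    ring
  have h2 : ((a * b : ℤ) : ℚ) = q * q := by exact_mod_cast h1
  rw [← Rat.isSquare_intCast_iff]
  exact ⟨q, h2⟩

theorem Sqrt_two {a b c : ℤ} {x y z : ℂ} (ha : Squarefree a) (hb : Squarefree b) (hab : a ≠ b)
    (hx : x ^ 2 = a) (hy : y ^ 2 = b) (hz : z ^ 2 = c) (p q r : ℚ)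
    (h : (p : ℂ) * x + q * y + r * z = 0) : p = 0 ∨ q = 0 := by
  by_contra hcon
  push Not at hcon
  obtain ⟨hp, hq⟩ := hcon
  apply Sqrt_irr ha hb hab hx hy ((r ^ 2 * c - p ^ 2 * a - q ^ 2 * b) / (2 * p * q))
  have hp' : (p : ℂ) ≠ 0 := by exact_mod_cast hp
  have hq' : (q : ℂ) ≠ 0 := by exact_mod_cast hq
  have h1 : (p : ℂ) * x + q * y = -(r * z) := by linear_combination h
  have h2 : ((p : ℂ) * x + q * y) ^ 2 = (r * z) ^ 2 := by rw [h1]; ring
  push_cast
  rw [eq_div_iff (mul_ne_zero (mul_ne_zero two_ne_zero hp') hq')]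
  rw [← hx, ← hy, ← hz]
  linear_combination h2

theorem pr_Sqrt : S_Sqrt := by
  intro D s hD hinj hs
  refine ⟨?_, fun q => Sqrt_irr (hD 0) (hD 1) (hinj.ne (by decide)) (hs 0) (hs 1) q⟩
  rw [Fintype.linearIndependent_iff]
  intro g hg
  rw [Fin.sum_univ_three] at hg
  simp only [Rat.smul_def] at hg
  have h01 := Sqrt_two (hD 0) (hD 1) (hinj.ne (by decide)) (hs 0) (hs 1) (hs 2) (g 0) (g 1) (g 2) hg
  have h02 := Sqrt_two (hD 0) (hD 2) (hinj.ne (by decide)) (hs 0) (hs 2) (hs 1) (g 0) (g 2) (g 1)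
    (by linear_combination hg)
  have h12 := Sqrt_two (hD 1) (hD 2) (hinj.ne (by decide)) (hs 1) (hs 2) (hs 0) (g 1) (g 2) (g 0)
    (by linear_combination hg)
  have hne : ∀ i, s i ≠ 0 := by
    intro i h0
    have h1 := hs i
    rw [h0] at h1
    have h2 : (D i : ℂ) = 0 := by rw [← h1]; ring
    exact (hD i).ne_zero (by exact_mod_cast h2)
  have key : ∀ (x : ℚ) (z : ℂ), z ≠ 0 → (x : ℂ) * z = 0 → x = 0 := by
    intro x z hz hx
    rcases mul_eq_zero.1 hx with h | h
    · exact_mod_cast h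
    · exact absurd h hz
  have h0 : g 0 = 0 := by
    by_contra h
    have h1 : g 1 = 0 := h01.resolve_left h
    have h2 : g 2 = 0 := h02.resolve_left h
    rw [h1, h2] at hg
    exact h (key _ _ (hne 0) (by simpa using hg))
  have h1 : g 1 = 0 := by
    by_contra h
    have h2 : g 2 = 0 := h12.resolve_left h
    rw [h0, h2] at hg
    exact h (key _ _ (hne 1) (by simpa using hg))
  have h2 : g 2 = 0 := by
    rw [h0, h1] at hg
    exact key _ _ (hne 2) (by simpa using hg)
  intro i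
  fin_cases i
  · exact h0
  · exact h1
  · exact h2

end Pool.Agent.Work.MP_327059_nt.AA
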