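import Pool.Agent.Work.MP_327059_nt.AA.Stmts
import Pool.Agent.Work.MP_8da9ea_nt.Der

set_option autoImplicit false

namespace Pool.Agent.Work.MP_327059_nt.AA

open Polynomial

/-- size of a polynomial: zero for the zero polynomial, degree plus one otherwise -/
noncomputable def AlgB_m {K : Type*} [Field K] (P : K[X]) : ℕ :=
  open Classical in if P = 0 then 0 else P.natDegree + 1

theorem AlgB_m_le {K : Type*} [Field K] (P : K[X]) (c : K) :
    AlgB_m (derivative P + C c * P) ≤ AlgB_m P := by
  unfold AlgB_m
  by_cases hP : P = 0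
  · subst hP
    simp
  · rw [if_neg hP]
    split_ifs
    · omega
    · have h1 : (derivative P + C c * P).natDegree ≤ P.natDegree := by
        refine (natDegree_add_le _ _).trans (max_le ?_ ?_)
        · exact (natDegree_derivative_le P).trans (Nat.sub_le _ _)
        · exact natDegree_C_mul_le _ _
      omega

theorem AlgB_m_lt {K : Type*} [Field K] (P : K[X]) (hP : P ≠ 0) :
    AlgB_m (derivative P) < AlgB_m P := by
  unfold AlgB_m
  rw [if_neg hP]
  split_ifs with h
  · omega
  · have h1 : P.natDegree ≠ 0 := by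
      intro h0
      apply h
      exact derivative_of_natDegree_zero h0
    have h2 := natDegree_derivative_lt h1
    omega

/-- exponentials are transcendental -/
theorem AlgB_exp {K M : Type*} [Field K] [CharZero K] [Field M] [Algebra K M]
    (D : Derivation K M M) (x u : M) (c : K) (hx : D x = 1) (hu : u ≠ 0) (hc : c ≠ 0)
    (hDu : D u = c • u) (N : ℕ) :
    ∀ (m : ℕ) (a : ℕ → K[X]), ∑ j ∈ Finset.range N, AlgB_m (a j) ≤ m →
      ∑ j ∈ Finset.range N, aeval x (a j) * u ^ j = 0 → ∀ j ∈ Finset.range N, a j = 0 := by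
  intro m
  induction m using Nat.strong_induction_on with
  | _ m ih =>
    intro a ham hrel
    by_contra hcon
    push Not at hcon
    obtain ⟨J, hJ, haJ⟩ := hcon
    let b : ℕ → K[X] := fun j => derivative (a j) + C (((j : K) - (J : K)) * c) * a j
    have hDpow : ∀ j : ℕ, D (u ^ j) = ((j : K) * c) • u ^ j := by
      intro j
      rw [Derivation.leibniz_pow, hDu]
      rcases Nat.eq_zero_or_pos j with h0 | h0
      · subst h0; simp
      · rw [nsmul_eq_mul, smul_eq_mul, Algebra.smul_def, Algebra.smul_def]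
        obtain ⟨i, rfl⟩ : ∃ i, j = i + 1 := ⟨j - 1, by omega⟩
        rw [Nat.add_sub_cancel, pow_succ, map_mul, map_natCast]
        ring
    have hDa : ∀ P : K[X], D (aeval x P) = aeval x (derivative P) := by
      intro P
      rw [Derivation.map_aeval, hx, smul_eq_mul, mul_one]
    have hrelb : ∑ j ∈ Finset.range N, aeval x (b j) * u ^ j = 0 := by
      have h1 : D (∑ j ∈ Finset.range N, aeval x (a j) * u ^ j) = 0 := by rw [hrel, map_zero]
      rw [map_sum] at h1
      have h2 : ∑ j ∈ Finset.range N, aeval x (b j) * u ^ j =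
          ∑ j ∈ Finset.range N, D (aeval x (a j) * u ^ j) -
          algebraMap K M ((J : K) * c) * ∑ j ∈ Finset.range N, aeval x (a j) * u ^ j := by
        rw [Finset.mul_sum, ← Finset.sum_sub_distrib]
        refine Finset.sum_congr rfl fun j _ => ?_
        rw [Derivation.leibniz, hDa, hDpow, smul_eq_mul, smul_eq_mul, Algebra.smul_def]
        simp only [b, map_add, map_mul, aeval_C, map_sub, map_natCast]
        ring
      rw [h2, h1, hrel]
      simp
    have hle : ∀ j ∈ Finset.range N, AlgB_m (b j) ≤ AlgB_m (a j) := fun j _ => AlgB_m_le _ _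
    have hlt : AlgB_m (b J) < AlgB_m (a J) := by
      have : b J = derivative (a J) := by simp [b]
      rw [this]
      exact AlgB_m_lt _ haJ
    have hsum : ∑ j ∈ Finset.range N, AlgB_m (b j) < ∑ j ∈ Finset.range N, AlgB_m (a j) :=
      Finset.sum_lt_sum hle ⟨J, hJ, hlt⟩
    have hb0 := ih _ (lt_of_lt_of_le hsum ham) b le_rfl hrelb
    -- all other coefficients vanish
    have ha0 : ∀ j ∈ Finset.range N, j ≠ J → a j = 0 := by
      intro j hj hjJ
      by_contra hne
      have h1 := hb0 j hj
      have hd : ((j : K) - (J : K)) * c ≠ 0 := by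
        apply mul_ne_zero _ hc
        rw [sub_ne_zero]
        exact_mod_cast hjJ
      have h2 : derivative (a j) = - (C (((j : K) - (J : K)) * c) * a j) :=
        eq_neg_of_add_eq_zero_left h1
      have h3 : (derivative (a j)).degree = (a j).degree := by
        rw [h2, degree_neg, degree_C_mul hd]
      have h4 := degree_derivative_lt hne
      rw [h3] at h4
      exact lt_irrefl _ h4
    have hJ0 : derivative (a J) = 0 := by
      have h1 := hb0 J hJ
      simpa [b] using h1
    have hJc : a J = C ((a J).coeff 0) := eq_C_of_derivative_eq_zero hJ0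
    rw [Finset.sum_eq_single_of_mem J hJ (fun j hj hjJ => by rw [ha0 j hj hjJ]; simp)] at hrel
    rcases mul_eq_zero.1 hrel with h | h
    · rw [hJc, aeval_C] at h
      have h5 : (a J).coeff 0 = 0 := by
        rwa [map_eq_zero_iff _ (algebraMap K M).injective] at h
      apply haJ
      rw [hJc, h5, C_0]
    · exact hu (eq_zero_of_pow_eq_zero h)

theorem AlgB_kill {x u : ℂ} (h : Alg x u) (X : Derivation ℚ ℂ ℂ) (hX : X x = 0) : X u = 0 := by
  apply Pool.Agent.ED.der_zero_alg (IntermediateField.adjoin ℚ {x}) X _ u h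
  apply Pool.Agent.ED.der_zero_adjoin
  intro s hs
  rw [Set.mem_singleton_iff.1 hs, hX]

theorem AlgB_log {x u : ℂ} (h : Alg x u) (D X : Derivation ℚ ℂ ℂ) (hD : D x = 1)
    (hX : X x = 0) : X (D u * u⁻¹) = 0 := by
  have h1 : X u = 0 := AlgB_kill h X hX
  have h2 : (⁅X, D⁆ : Derivation ℚ ℂ ℂ) x = 0 := by
    rw [Derivation.commutator_apply, hD, hX, map_zero]
    simp
  have h3 : (⁅X, D⁆ : Derivation ℚ ℂ ℂ) u = 0 := AlgB_kill h _ h2
  rw [Derivation.commutator_apply, h1, map_zero, sub_zero] at h3
  rw [Derivation.leibniz, h3, Derivation.leibniz_inv, h1]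
  simp

theorem pr_AlgB : S_AlgB := by
  intro x y u v hxy hu hv hxu hyv hxyuv
  obtain ⟨D1, hD1⟩ := Pool.Agent.ED.exists_derivation hxy ![1, 0]
  obtain ⟨D2, hD2⟩ := Pool.Agent.ED.exists_derivation hxy ![0, 1]
  have h1x : D1 x = 1 := by simpa using hD1 0
  have h1y : D1 y = 0 := by simpa using hD1 1
  have h2x : D2 x = 0 := by simpa using hD2 0
  have h2y : D2 y = 1 := by simpa using hD2 1
  have h1v : D1 v = 0 := AlgB_kill hyv D1 h1y
  have h2u : D2 u = 0 := AlgB_kill hxu D2 h2x
  have h3 : (D1 - D2) (u * v) = 0 := by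
    apply AlgB_kill hxyuv
    rw [Derivation.sub_apply, map_add, map_add, h1x, h1y, h2x, h2y]
    ring
  have h4 : D1 u * v = u * D2 v := by
    rw [Derivation.sub_apply, Derivation.leibniz, Derivation.leibniz, h1v, h2u] at h3
    simp only [smul_eq_mul, mul_zero, zero_add, add_zero] at h3
    linear_combination h3
  set c := D1 u * u⁻¹ with hc
  have hc2 : c = D2 v * v⁻¹ := by
    rw [hc]
    field_simp
    linear_combination h4
  have h1c : D1 c = 0 := by
    rw [hc2]
    exact AlgB_log hyv D2 D1 h2y h1y
  have hDu : D1 u = c * u := by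
    rw [hc, mul_assoc, inv_mul_cancel₀ hu, mul_one]
  have hc0 : c = 0 := by
    by_contra hcne
    let K := IntermediateField.adjoin ℚ {c}
    have hK : ∀ s ∈ K, D1 s = 0 := by
      apply Pool.Agent.ED.der_zero_adjoin
      intro s hs
      rw [Set.mem_singleton_iff.1 hs, h1c]
    let D := Pool.Agent.ED.derL K D1 hK
    have hD : ∀ a, D a = D1 a := fun a => rfl
    let c' : K := ⟨c, IntermediateField.subset_adjoin ℚ {c} (Set.mem_singleton c)⟩
    have hc' : c' ≠ 0 := by
      intro h
      apply hcne
      have := congrArg (Subtype.val) h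
      exact this
    have hxu' : IsAlgebraic (Algebra.adjoin ℚ {x}) u := IntermediateField.isAlgebraic_adjoin_iff.1 hxu
    obtain ⟨p, hp0, hp⟩ := hxu'
    have hrep : ∀ j, ∃ P : ℚ[X], aeval x P = ((p.coeff j : Algebra.adjoin ℚ {x}) : ℂ) := by
      intro j
      exact (Algebra.adjoin_singleton_eq_range_aeval ℚ x).le (p.coeff j).2
    choose P hP using hrep
    have h6 : ∑ j ∈ Finset.range (p.natDegree + 1),
        aeval x ((P j).map (algebraMap ℚ K)) * u ^ j = 0 := by
      rw [aeval_eq_sum_range] at hp
      rw [← hp]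
      refine Finset.sum_congr rfl fun j _ => ?_
      rw [aeval_map_algebraMap, hP j]
      rfl
    have h7 := AlgB_exp D x u c' (by rw [hD, h1x]) hu hc' (by rw [hD, hDu]; rfl)
      (p.natDegree + 1) _ _ le_rfl h6 p.natDegree (by simp)
    have h8 : P p.natDegree = 0 := by
      rwa [Polynomial.map_eq_zero] at h7
    have h9 := hP p.natDegree
    rw [h8, map_zero] at h9
    apply hp0
    rw [← leadingCoeff_eq_zero]
    apply Subtype.ext
    exact h9.symm
  by_contra hnalg
  have htr : Transcendental ℚ u := hnalg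
  have hai : AlgebraicIndependent ℚ (fun _ : Unit => u) := by
    rw [algebraicIndependent_unique_type_iff]
    exact htr
  obtain ⟨X, hX⟩ := Pool.Agent.ED.exists_derivation hai (fun _ => (1 : ℂ))
  have h5 : (X - (X x) • D1) u = 0 := by
    apply AlgB_kill hxu
    rw [Derivation.sub_apply, Derivation.smul_apply, h1x, smul_eq_mul, mul_one, sub_self]
  rw [Derivation.sub_apply, Derivation.smul_apply, hDu, hc0, hX ()] at h5
  simp at h5

end Pool.Agent.Work.MP_327059_nt.AA
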