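import Pool.Agent.Work.MP_327059_nt.AA.Stmts

set_option autoImplicit false

namespace Pool.Agent.Work.MP_327059_nt.AA

open Polynomial

lemma ZE_diff {ι : Type} [Fintype ι] (ω : ι → ℂ) (P : ι → ℂ[X]) : Differentiable ℂ (ep ω P) := by
  unfold ep
  apply Differentiable.fun_sum
  intro j _
  apply Differentiable.mul
  · exact (P j).differentiable
  · apply Differentiable.cexp
    exact (differentiable_const _).mul differentiable_id

theorem pr_ZE (h1 : S_Indep) (h2 : S_Grow) (h3 : S_Schw) : S_ZE := by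
  intro ι _ d T ω P Z Ω r hω hΩ hdeg hne hr hZ hvan
  obtain ⟨j0, hj0⟩ := hne
  have hΩ0 : 0 ≤ Ω := (norm_nonneg _).trans (hΩ j0)
  set F := ep ω P with hF
  have hFd : Differentiable ℂ F := ZE_diff ω P
  set N : ℕ := Fintype.card ι * d with hN
  -- the maximum
  obtain ⟨z0, hz0, hmax⟩ := (isCompact_closedBall (0 : ℂ) r).exists_isMaxOn
    ⟨0, Metric.mem_closedBall_self hr.le⟩ (hFd.continuous.norm.continuousOn)
  have hbd : ∀ z, ‖z‖ ≤ r → ‖F z‖ ≤ ‖F z0‖ := by
    intro z hz
    exact hmax (by simpa using hz)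
  have hz0r : ‖z0‖ ≤ r := by simpa using hz0
  have hNpos : 1 ≤ N := by
    have hd : 1 ≤ d := by
      by_contra hcon
      have h0 : d = 0 := by omega
      have := hdeg j0
      rw [h0] at this
      have h5 := (zero_le_degree_iff (p := P j0)).mpr hj0
      exact absurd (lt_of_le_of_lt h5 this) (by simp)
    have hc : 1 ≤ Fintype.card ι := Fintype.card_pos_iff.mpr ⟨j0⟩
    exact Nat.mul_pos hc hd
  have hmpos : 0 < ‖F z0‖ := by
    by_contra hcon
    have hm0 : ‖F z0‖ = 0 := le_antisymm (not_lt.mp hcon) (norm_nonneg _)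
    apply hj0
    refine h1 ι ω P hω ?_ j0
    intro z
    have hR : r ≤ max r ‖z‖ := le_max_left _ _
    have := h2 ι d ω P Ω r (max r ‖z‖) 0 hΩ hdeg hr hR
      (fun w hw => (hbd w hw).trans hm0.le) z (le_max_right _ _)
    simpa using this
  have hgrow : ∀ z, ‖z‖ ≤ 7 * r → ‖F z‖ ≤
      ‖F z0‖ * Real.exp (8 * r * Ω) * (N : ℝ) * 7 ^ N := by
    intro z hz
    have := h2 ι d ω P Ω r (7 * r) ‖F z0‖ hΩ hdeg hr (by linarith) hbd z hz
    have e1 : (7 * r + r) * Ω = 8 * r * Ω := by ring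
    have e2 : 7 * r / r = 7 := by field_simp
    rw [e1, e2] at this
    exact this
  have hschw := h3 F Z T r (7 * r) (‖F z0‖ * Real.exp (8 * r * Ω) * (N : ℝ) * 7 ^ N) hFd hr
    (by linarith) hZ hvan hgrow z0 hz0r
  have e3 : 2 * r / (7 * r - r) = 3⁻¹ := by
    have : (7 * r - r) ≠ 0 := by linarith
    field_simp
    ring
  rw [e3, inv_pow] at hschw
  have h4 : (3 : ℝ) ^ (T * Z.card) ≤ Real.exp (8 * r * Ω) * (N : ℝ) * 7 ^ N := by
    have h5 : ‖F z0‖ * 3 ^ (T * Z.card) ≤
        ‖F z0‖ * (Real.exp (8 * r * Ω) * (N : ℝ) * 7 ^ N) := by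
      have h6 : (0 : ℝ) < 3 ^ (T * Z.card) := by positivity
      have h7 := mul_le_mul_of_nonneg_right hschw h6.le
      rw [mul_assoc, inv_mul_cancel₀ h6.ne', mul_one] at h7
      calc ‖F z0‖ * 3 ^ (T * Z.card) ≤ ‖F z0‖ * Real.exp (8 * r * Ω) * (N : ℝ) * 7 ^ N := h7
        _ = _ := by ring
    exact le_of_mul_le_mul_left h5 hmpos
  have hN0 : (0 : ℝ) < N := by exact_mod_cast hNpos
  have h8 := Real.log_le_log (by positivity) h4
  rw [Real.log_pow, Real.log_mul (by positivity) (by positivity),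
    Real.log_mul (by positivity) (by positivity), Real.log_exp, Real.log_pow] at h8
  have h9 : Real.log N ≤ N := (Real.log_le_sub_one_of_pos hN0).trans (by linarith)
  have h10 : Real.log 7 ≤ 2 := by
    rw [Real.log_le_iff_le_exp (by norm_num)]
    have : Real.exp 2 = Real.exp 1 * Real.exp 1 := by rw [← Real.exp_add]; norm_num
    rw [this]
    have := Real.exp_one_gt_d9
    nlinarith
  have h11 : 1 ≤ Real.log 3 := by
    rw [Real.le_log_iff_exp_le (by norm_num)]
    have := Real.exp_one_lt_d9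
    linarith
  have h12 : (N : ℝ) = Fintype.card ι * d := by rw [hN]; push_cast; ring
  rw [← h12]
  have h13 : ((T * Z.card : ℕ) : ℝ) = T * Z.card := by push_cast; ring
  rw [h13] at h8
  have h14 : (0 : ℝ) ≤ T * Z.card := by positivity
  have h15 : (T * Z.card : ℝ) ≤ T * Z.card * Real.log 3 := le_mul_of_one_le_right h14 h11
  have h16 : (N : ℝ) * Real.log 7 ≤ N * 2 := mul_le_mul_of_nonneg_left h10 hN0.le
  have h17 : 0 ≤ r * Ω := by positivity
  linarith

end Pool.Agent.Work.MP_327059_nt.AA
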