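import Pool.Agent.Work.MP_327059_nt.AA.Defs

/-!
# Almost-all results for the conjecture of Gel'fond and Schneider in degree 2: statements
-/

set_option autoImplicit false

namespace Pool.Agent.Work.MP_327059_nt.AA

open Polynomial

/-! ### Linear algebra and resultants -/

/-- Row bound for determinants. -/
def S_DetRow : Prop :=
  ∀ (n : ℕ) (A : Matrix (Fin n) (Fin n) ℂ), ‖A.det‖ ≤ ∏ i, ∑ j, ‖A i j‖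

/-- Cramer's rule with estimates. -/
def S_Cramer : Prop :=
  ∀ (n : ℕ) (A : Matrix (Fin n) (Fin n) ℂ) (v w : Fin n → ℂ) (R : Fin n → ℝ) (i : Fin n),
    A.mulVec v = w → (∀ k, ∑ j, ‖A k j‖ ≤ R k) → (∀ k, 1 ≤ R k) →
    ‖A.det‖ * ‖v i‖ ≤ (∑ j, ‖w j‖) * ∏ k, R k

/-- Two polynomials without common factor are not both small. -/
def S_Res : Prop :=
  ∀ (θ : ℂ) (P Q : ℤ[X]), 1 ≤ P.natDegree → 1 ≤ Q.natDegree → P.resultant Q ≠ 0 →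
    1 ≤ ((P.natDegree + Q.natDegree : ℕ) : ℝ) * (max 1 ‖θ‖) ^ (P.natDegree + Q.natDegree) *
      max ‖aeval θ P‖ ‖aeval θ Q‖ * len P ^ Q.natDegree * len Q ^ P.natDegree

/-- Lengths and Mahler measures. -/
def S_LenM : Prop :=
  (∀ P : ℤ[X], P ≠ 0 → 1 ≤ mm P ∧ mm P ≤ len P ∧ len P ≤ 2 ^ P.natDegree * mm P) ∧
  (∀ P Q : ℤ[X], P ≠ 0 → Q ≠ 0 → tt (P * Q) = tt P + tt Q) ∧
  (∀ P : ℤ[X], P ≠ 0 → 0 ≤ tt P)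

/-- Non associated irreducible polynomials are not both small. -/
def S_Cop : Prop :=
  ∀ θ : ℂ, ∃ C : ℝ, 0 < C ∧ ∀ P Q : ℤ[X], Irreducible P → Irreducible Q → 1 ≤ P.natDegree →
    1 ≤ Q.natDegree → ¬ Associated P Q →
    1 ≤ max ‖aeval θ P‖ ‖aeval θ Q‖ * Real.exp (C * (tt P * tt Q))

/-- A small polynomial has a small irreducible factor. -/
def S_Fac : Prop :=
  ∀ (θ : ℂ) (κ : ℝ) (P : ℤ[X]), 0 < κ → P ≠ 0 → aeval θ P ≠ 0 → ‖aeval θ P‖ < 1 →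
    ‖aeval θ P‖ ≤ Real.exp (-(κ * tt P)) →
    ∃ Q : ℤ[X], Irreducible Q ∧ 1 ≤ Q.natDegree ∧ tt Q ≤ tt P ∧
      ‖aeval θ Q‖ ≤ Real.exp (-(κ * tt Q))

/-- **Gel'fond's criterion** (with room). -/
def S_GC : Prop :=
  ∀ (θ : ℂ) (a : ℕ) (C : ℝ), Transcendental ℚ θ → 0 < C →
    ¬ ∀ᶠ n : ℕ in Filter.atTop, ∃ P : ℤ[X], P ≠ 0 ∧ (P.natDegree : ℝ) ≤ C * (n : ℝ) ^ a ∧
      Real.log (len P) ≤ C * (n : ℝ) ^ a ∧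
      ‖aeval θ P‖ ≤ Real.exp (-((n : ℝ) ^ (2 * a + 1) / C))

/-- **Norms**: a small value gives a small value of a polynomial in `θ`. -/
def S_NL : Prop :=
  ∀ (r : ℕ) (θ : ℂ) (x : Fin r → ℂ), (∀ i, Alg θ (x i)) →
    ∃ C : ℝ, 1 ≤ C ∧ ∀ (D : ℕ) (H : ℝ) (ξ : ℂ), 1 ≤ H → IsVal x D H ξ → ξ ≠ 0 →
      ∃ P : ℤ[X], aeval θ P ≠ 0 ∧ (P.natDegree : ℝ) ≤ C * (D + 1) ∧
        Real.log (len P) ≤ C * (D + 1 + Real.log H) ∧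
        ‖aeval θ P‖ ≤ ‖ξ‖ * Real.exp (C * (D + 1 + Real.log H))

/-- Liouville's inequality. -/
def S_Liou : Prop :=
  ∀ (r : ℕ) (x : Fin r → ℂ), (∀ i, IsAlgebraic ℚ (x i)) →
    ∃ C : ℝ, 1 ≤ C ∧ ∀ (D : ℕ) (H : ℝ) (ξ : ℂ), 1 ≤ H → IsVal x D H ξ → ξ ≠ 0 →
      1 ≤ ‖ξ‖ * Real.exp (C * (D + 1 + Real.log H))

/-! ### Analysis -/

/-- Small linear combinations of entire functions. -/
def S_PL : Prop :=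
  ∀ (ι : Type) [Fintype ι] (f : ι → ℂ → ℂ) (r A : ℝ) (h K : ℕ), 0 < r → 0 ≤ A → 0 < K →
    (∀ i, Differentiable ℂ (f i)) → (∀ i z, ‖z‖ ≤ 2 * r → ‖f i z‖ ≤ A) →
    2 * K ^ 2 ≤ h * Fintype.card ι →
    ∃ p : ι → ℤ, p ≠ 0 ∧ (∀ i, |p i| ≤ 2 ^ h) ∧
      ∀ z : ℂ, ‖z‖ ≤ r →
        ‖∑ i, (p i : ℂ) * f i z‖ ≤ (4 * K + 2) * (Fintype.card ι * 2 ^ h * A) / 2 ^ K

/-- Derivatives of a small function. -/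
def S_Cauchy : Prop :=
  ∀ (F : ℂ → ℂ) (r ε : ℝ) (τ : ℕ) (ζ : ℂ), Differentiable ℂ F →
    (∀ z, ‖z‖ ≤ r + 1 → ‖F z‖ ≤ ε) → ‖ζ‖ ≤ r → ‖iteratedDeriv τ F ζ‖ ≤ τ.factorial * ε

/-- Exponential polynomials do not vanish identically. -/
def S_Indep : Prop :=
  ∀ (ι : Type) [Fintype ι] (ω : ι → ℂ) (P : ι → ℂ[X]), Function.Injective ω →
    (∀ z, ep ω P z = 0) → ∀ j, P j = 0

/-- Growth of exponential polynomials. -/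
def S_Grow : Prop :=
  ∀ (ι : Type) [Fintype ι] (d : ℕ) (ω : ι → ℂ) (P : ι → ℂ[X]) (Ω r R M : ℝ),
    (∀ j, ‖ω j‖ ≤ Ω) → (∀ j, (P j).degree < d) → 0 < r → r ≤ R →
    (∀ z, ‖z‖ ≤ r → ‖ep ω P z‖ ≤ M) →
    ∀ z, ‖z‖ ≤ R → ‖ep ω P z‖ ≤ M * Real.exp ((R + r) * Ω) *
      ((Fintype.card ι * d : ℕ) : ℝ) * (R / r) ^ (Fintype.card ι * d)

/-- Schwarz' lemma with several zeros. -/
def S_Schw : Prop :=
  ∀ (F : ℂ → ℂ) (Z : Finset ℂ) (T : ℕ) (r R M : ℝ), Differentiable ℂ F → 0 < r → r < R →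
    (∀ ζ ∈ Z, ‖ζ‖ ≤ r) → (∀ ζ ∈ Z, ∀ τ < T, iteratedDeriv τ F ζ = 0) →
    (∀ z, ‖z‖ ≤ R → ‖F z‖ ≤ M) →
    ∀ z, ‖z‖ ≤ r → ‖F z‖ ≤ M * (2 * r / (R - r)) ^ (T * Z.card)

/-- Zero estimate. -/
def S_ZE : Prop :=
  ∀ (ι : Type) [Fintype ι] (d T : ℕ) (ω : ι → ℂ) (P : ι → ℂ[X]) (Z : Finset ℂ) (Ω r : ℝ),
    Function.Injective ω → (∀ j, ‖ω j‖ ≤ Ω) → (∀ j, (P j).degree < d) → (∃ j, P j ≠ 0) →
    0 < r → (∀ ζ ∈ Z, ‖ζ‖ ≤ r) → (∀ ζ ∈ Z, ∀ τ < T, iteratedDeriv τ (ep ω P) ζ = 0) →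
    (T * Z.card : ℝ) ≤ 8 * (Fintype.card ι * d + r * Ω)

/-! ### Values -/

/-- Finite sums of values. -/
def S_Sum : Prop :=
  ∀ (r : ℕ) (x : Fin r → ℂ) (ι : Type) (s : Finset ι) (D : ℕ) (H : ℝ) (ξ : ι → ℂ), 0 ≤ H →
    (∀ i ∈ s, IsVal x D H (ξ i)) → IsVal x D (s.card * H) (∑ i ∈ s, ξ i)

/-- Values of the derivatives, main theorem. -/
def S_Rep : Prop :=
  ∀ (θ γ : ℂ) (y : Fin 3 → ℂ) (i k w₁ w₂ τ L S : ℕ) (s : Fin 3 → ℕ), w₁ ≤ L → w₂ ≤ L →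
    (∀ j, s j ≤ S) → 1 ≤ L → 1 ≤ S →
    IsVal (xv θ γ y) (i + k + τ + 6 * L * S) ((3 * S : ℝ) ^ k * (k + 2 * L : ℝ) ^ τ)
      (θ ^ i * iteratedDeriv τ (fun z : ℂ => z ^ k * Complex.exp ((w₁ + w₂ * γ) * z))
        (∑ j, (s j : ℂ) * y j))

/-- Values of the derivatives, theorem of Gel'fond and Schneider. -/
def S_RepG : Prop :=
  ∀ (β l : ℂ) (w₁ w₂ τ L S s : ℕ), w₁ ≤ L → w₂ ≤ L → s ≤ S → 1 ≤ L →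
    IsVal (gv β l) (τ + 2 * L * S) ((2 * L : ℝ) ^ τ)
      (iteratedDeriv τ (fun z : ℂ => Complex.exp ((w₁ + w₂ * β) * z)) (s * l))

/-! ### The two transcendence theorems -/

/-- The small non-zero values. -/
def S_Fun : Prop :=
  ∀ (θ γ : ℂ) (y : Fin 3 → ℂ), Transcendental ℚ θ → (∀ q : ℚ, γ ≠ q) → LinearIndependent ℚ y →
    ∃ C : ℝ, 1 ≤ C ∧ ∀ᶠ n : ℕ in Filter.atTop, ∃ (D : ℕ) (H : ℝ) (ξ : ℂ), 1 ≤ H ∧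
      IsVal (xv θ γ y) D H ξ ∧ ξ ≠ 0 ∧ (D : ℝ) ≤ C * (n : ℝ) ^ 24 ∧
      Real.log H ≤ C * (n : ℝ) ^ 24 ∧ ‖ξ‖ ≤ Real.exp (-((n : ℝ) ^ 49 / C))

/-- **Theorem T** (two algebraically independent numbers). -/
def S_T23 : Prop :=
  ∀ (θ γ : ℂ) (y : Fin 3 → ℂ), Transcendental ℚ θ → (∀ q : ℚ, γ ≠ q) → LinearIndependent ℚ y →
    Alg θ γ → (∀ j, Alg θ (y j)) → (∀ j, Alg θ (Complex.exp (y j))) →
    (∀ j, Alg θ (Complex.exp (γ * y j))) → False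

/-- The small non-zero values, theorem of Gel'fond and Schneider. -/
def S_FunG : Prop :=
  ∀ β l : ℂ, (∀ q : ℚ, β ≠ q) → l ≠ 0 →
    ∃ C : ℝ, 1 ≤ C ∧ ∀ᶠ n : ℕ in Filter.atTop, ∃ (D : ℕ) (H : ℝ) (ξ : ℂ), 1 ≤ H ∧
      IsVal (gv β l) D H ξ ∧ ξ ≠ 0 ∧ (D : ℝ) ≤ C * (n : ℝ) ^ 14 ∧
      Real.log H ≤ C * (n : ℝ) ^ 14 ∧ ‖ξ‖ ≤ Real.exp (-((n : ℝ) ^ 15 / C))

/-- **The theorem of Gel'fond and Schneider.** -/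
def S_GS : Prop :=
  ∀ β l : ℂ, IsAlgebraic ℚ β → (∀ q : ℚ, β ≠ q) → l ≠ 0 → IsAlgebraic ℚ (Complex.exp l) →
    ¬ IsAlgebraic ℚ (Complex.exp (β * l))

/-! ### Algebra -/

/-- Pairs of algebraically independent numbers. -/
def S_Pair : Prop :=
  ∀ θ x : ℂ, Transcendental ℚ θ → (AlgebraicIndependent ℚ ![θ, x] ↔ ¬ Alg θ x)

/-- Square roots. -/
def S_Sqrt : Prop :=
  ∀ (D : Fin 3 → ℤ) (s : Fin 3 → ℂ), (∀ i, Squarefree (D i)) → Function.Injective D →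
    (∀ i, s i ^ 2 = D i) → LinearIndependent ℚ s ∧ ∀ q : ℚ, s 0 * s 1 ≠ q

/-- Functions of `x`, of `y` and of `x + y`. -/
def S_AlgB : Prop :=
  ∀ x y u v : ℂ, AlgebraicIndependent ℚ ![x, y] → u ≠ 0 → v ≠ 0 → Alg x u → Alg y v →
    Alg (x + y) (u * v) → IsAlgebraic ℚ u

/-- Sets without four elements whose product is a square. -/
def S_Count : Prop :=
  ∀ (X : ℕ) (B : Finset ℕ), (∀ n ∈ B, 1 ≤ n ∧ n ≤ X) →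
    (∀ a ∈ B, ∀ b ∈ B, ∀ c ∈ B, ∀ d ∈ B, a ≠ b → a ≠ c → a ≠ d → b ≠ c → b ≠ d → c ≠ d →
      ¬ IsSquare (a * b * c * d)) →
    (B.card : ℝ) ≤ Nat.primeCounting X + 3 * (X : ℝ) ^ (5 / 6 : ℝ)

/-- **Almost all fields.** -/
def S_FinalA : Prop :=
  ∀ l : ℂ, l ≠ 0 → IsAlgebraic ℚ (Complex.exp l) → ∃ B : Set ℤ,
    (∀ D ∈ B, Squarefree D ∧ D ≠ 1) ∧
    (∀ β : ℂ, (minpoly ℚ β).natDegree = 2 →
      (∀ D ∈ B, ∀ s : ℂ, s ^ 2 = D → β ∉ IntermediateField.adjoin ℚ {s}) →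
      AlgebraicIndependent ℚ ![l, Complex.exp (β * l)]) ∧
    (∀ a ∈ B, ∀ b ∈ B, ∀ c ∈ B, a ≠ b → a ≠ c → b ≠ c → ¬ IsSquare (a * b * c)) ∧
    (∀ a ∈ B, ∀ b ∈ B, ∀ c ∈ B, ∀ d ∈ B, a ≠ b → a ≠ c → a ≠ d → b ≠ c → b ≠ d → c ≠ d →
      ¬ IsSquare (a * b * c * d)) ∧
    ∀ X : ℕ, ((B ∩ Set.Icc (-X : ℤ) X).ncard : ℝ) ≤
      2 * Nat.primeCounting X + 6 * (X : ℝ) ^ (5 / 6 : ℝ)

/-- **Almost all logarithms.** -/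
def S_FinalB : Prop :=
  ∀ β : ℂ, (minpoly ℚ β).natDegree = 2 →
    (∀ l : Fin 3 → ℂ, (∀ i, IsAlgebraic ℚ (Complex.exp (l i))) →
      (∀ i j, i ≠ j → LinearIndependent ℚ ![l i, l j]) → ¬ LinearIndependent ℚ l →
      ∃ i, AlgebraicIndependent ℚ ![l i, Complex.exp (β * l i)]) ∧
    (∀ l : ℂ, IsAlgebraic ℚ (Complex.exp l) → (∀ n : ℕ, 0 < n → Complex.exp l ^ n ≠ 1) →
      {k : ℤ | ¬ AlgebraicIndependent ℚ ![l + 2 * Real.pi * Complex.I * k,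
        Complex.exp (β * (l + 2 * Real.pi * Complex.I * k))]}.encard ≤ 2)

end Pool.Agent.Work.MP_327059_nt.AA
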