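import Pool.Agent.Work.MP_327059_nt.Bd.B03
import Pool.Agent.Work.MP_327059_nt.Bd.B02
import Pool.Agent.Work.MP_327059_nt.Bd.B04
import Pool.Agent.Work.MP_327059_nt.AA.ZE

/-!
# The transcendence theorems
-/

set_option autoImplicit false

namespace Pool.Agent.Work.MP_327059_nt.AA

theorem full_Cramer : S_Cramer := pr_Cramer pr_DetRow

theorem full_GC : S_GC := pr_GC pr_LenM (pr_Cop (pr_Res full_Cramer) pr_LenM) (pr_Fac pr_LenM)

theorem full_NL : S_NL := pr_NL full_Cramer

theorem full_ZE : S_ZE := pr_ZE pr_Indep pr_Grow pr_Schw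

/-- Two algebraically independent numbers among `γ`, `y_j`, `exp y_j`, `exp (γ y_j)`. -/
theorem full_T23 : S_T23 := pr_T23 (pr_Fun pr_PL pr_Cauchy full_ZE pr_Sum pr_Rep) full_NL full_GC

/-- The theorem of Gel'fond and Schneider. -/
theorem full_GS : S_GS := pr_GS (pr_FunG pr_PL pr_Cauchy full_ZE pr_Sum pr_RepG) (pr_Liou full_NL)

end Pool.Agent.Work.MP_327059_nt.AA
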