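import Mathlib

/-!
# Almost-all results for the conjecture of Gel'fond and Schneider in degree 2: definitions
-/

set_option autoImplicit false

namespace Pool.Agent.Work.MP_327059_nt.AA

open Polynomial

/-- The length of an integer polynomial. -/
noncomputable def len (P : ℤ[X]) : ℝ := ∑ i ∈ P.support, |(P.coeff i : ℝ)|

/-- The Mahler measure of an integer polynomial. -/
noncomputable def mm (P : ℤ[X]) : ℝ := (P.map (Int.castRingHom ℂ)).mahlerMeasure

/-- The size of an integer polynomial: degree plus logarithmic Mahler measure. -/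
noncomputable def tt (P : ℤ[X]) : ℝ := P.natDegree + Real.log (mm P)

/-- `IsVal x D H ξ`: the number `ξ` is the value at `x` of an integer polynomial of total degree
at most `D` and length at most `H`. -/
inductive IsVal {r : ℕ} (x : Fin r → ℂ) : ℕ → ℝ → ℂ → Prop
  | int (n : ℤ) : IsVal x 0 |(n : ℝ)| n
  | var (i : Fin r) : IsVal x 1 1 (x i)
  | add {D : ℕ} {H H' : ℝ} {ξ ξ' : ℂ} :
      IsVal x D H ξ → IsVal x D H' ξ' → IsVal x D (H + H') (ξ + ξ')
  | mul {D D' : ℕ} {H H' : ℝ} {ξ ξ' : ℂ} :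
      IsVal x D H ξ → IsVal x D' H' ξ' → IsVal x (D + D') (H * H') (ξ * ξ')
  | mono {D D' : ℕ} {H H' : ℝ} {ξ : ℂ} :
      D ≤ D' → H ≤ H' → IsVal x D H ξ → IsVal x D' H' ξ

/-- The exponential polynomial `∑ P_j(z) exp(ω_j z)`. -/
noncomputable def ep {ι : Type} [Fintype ι] (ω : ι → ℂ) (P : ι → ℂ[X]) (z : ℂ) : ℂ :=
  ∑ j, (P j).eval z * Complex.exp (ω j * z)

/-- The numbers of the main theorem. -/
noncomputable def xv (θ γ : ℂ) (y : Fin 3 → ℂ) : Fin 11 → ℂ :=
  ![θ, γ, y 0, y 1, y 2, Complex.exp (y 0), Complex.exp (y 1), Complex.exp (y 2),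
    Complex.exp (γ * y 0), Complex.exp (γ * y 1), Complex.exp (γ * y 2)]

/-- The numbers of the theorem of Gel'fond and Schneider. -/
noncomputable def gv (β l : ℂ) : Fin 3 → ℂ := ![β, Complex.exp l, Complex.exp (β * l)]

/-- Algebraic over `ℚ(θ)`. -/
def Alg (θ x : ℂ) : Prop := IsAlgebraic (IntermediateField.adjoin ℚ {θ}) x

/-- `l` and `exp (β l)` are algebraically dependent. -/
def Dep (l β : ℂ) : Prop := ¬ AlgebraicIndependent ℚ ![l, Complex.exp (β * l)]

end Pool.Agent.Work.MP_327059_nt.AA
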