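import Pool.Agent.Work.MP_327059_nt.AA.Stmts
import Pool.Agent.Work.LW.LW

/-!
# Item FinB: almost all logarithms
-/

set_option autoImplicit false

namespace Pool.Agent.Work.MP_327059_nt.AA

open Polynomial

theorem FinB_mono {K L : IntermediateField ℚ ℂ} (h : K ≤ L) {z : ℂ} (hz : IsAlgebraic K z) :
    IsAlgebraic L z := by
  refine IsAlgebraic.ringHom_of_comp_eq (f := (IntermediateField.inclusion h).toRingHom)
    (g := RingHom.id ℂ) hz ?_ ?_
  · exact (IntermediateField.inclusion h).toRingHom.injective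
  · rfl

theorem FinB_rat {θ z : ℂ} (hz : IsAlgebraic ℚ z) : Alg θ z :=
  hz.tower_top (L := IntermediateField.adjoin ℚ {θ})

theorem FinB_self (θ : ℂ) : Alg θ θ := by
  have h : θ ∈ IntermediateField.adjoin ℚ {θ} := IntermediateField.mem_adjoin_simple_self ℚ θ
  have := isAlgebraic_algebraMap (R := IntermediateField.adjoin ℚ {θ}) (A := ℂ) ⟨θ, h⟩
  exact this

theorem FinB_trans {θ x z : ℂ} (h1 : Alg θ x) (h2 : Alg x z) : Alg θ z := by
  unfold Alg at *
  set K := IntermediateField.adjoin ℚ {θ} with hK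
  let A : IntermediateField K ℂ := algebraicClosure K ℂ
  have hA : IntermediateField.adjoin ℚ {x} ≤ A.restrictScalars ℚ := by
    rw [IntermediateField.adjoin_simple_le_iff]
    exact (mem_algebraicClosure_iff (F := K) (E := ℂ)).mpr h1
  have h3 : IsAlgebraic (A.restrictScalars ℚ) z := FinB_mono hA h2
  have h4 : IsAlgebraic A z := h3
  exact h4.restrictScalars K

theorem FinB_algmul {θ x z : ℂ} (h1 : Alg θ x) (h2 : Alg θ z) : Alg θ (x * z) :=
  IsAlgebraic.mul h1 h2

theorem FinB_smul {θ z : ℂ} (q : ℚ) (hq : q ≠ 0) (h : Alg θ z) : Alg (q * θ) z := by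
  apply FinB_trans _ h
  have h1 : Alg (q * θ) (((q⁻¹ : ℚ) : ℂ) * (q * θ)) := by
    apply FinB_algmul
    · exact FinB_rat (isAlgebraic_algebraMap (R := ℚ) (A := ℂ) q⁻¹)
    · exact FinB_self _
  have h2 : ((q⁻¹ : ℚ) : ℂ) * (q * θ) = θ := by
    have : (q : ℂ) ≠ 0 := by exact_mod_cast hq
    rw [← mul_assoc]
    push_cast
    rw [inv_mul_cancel₀ this, one_mul]
  rwa [h2] at h1

/-- rational powers -/
theorem FinB_exp_rat {K : Type} [Field K] [Algebra K ℂ] {w : ℂ} (q : ℚ)
    (h : IsAlgebraic K (Complex.exp w)) : IsAlgebraic K (Complex.exp (q * w)) := by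
  have hd : 0 < q.den := q.den_pos
  apply IsAlgebraic.of_pow hd
  have h1 : Complex.exp (q * w) ^ q.den = Complex.exp w ^ q.num := by
    rw [← Complex.exp_nat_mul, ← Complex.exp_int_mul]
    congr 1
    have : (q : ℂ) * q.den = q.num := by
      exact_mod_cast Rat.mul_den_eq_num q
    rw [← this]
    ring
  rw [h1]
  rcases Int.eq_nat_or_neg q.num with ⟨m, hm | hm⟩
  · rw [hm, zpow_natCast]
    exact h.pow m
  · rw [hm, zpow_neg, zpow_natCast]
    exact (h.pow m).inv

theorem FinB_quad (β : ℂ) (h : (minpoly ℚ β).natDegree = 2) :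
    IsAlgebraic ℚ β ∧ (∀ q : ℚ, β ≠ q) ∧ ∃ t n : ℚ, β ^ 2 = t * β - n := by
  have hint : IsIntegral ℚ β := by
    by_contra hni
    rw [minpoly.eq_zero hni] at h
    simp at h
  refine ⟨hint.isAlgebraic, ?_, ?_⟩
  · intro q hq
    have h1 : (minpoly ℚ β).natDegree = 1 := by
      rw [minpoly.natDegree_eq_one_iff]
      exact ⟨q, by rw [hq]; rfl⟩
    omega
  · have h2 := minpoly.aeval ℚ β
    rw [Polynomial.aeval_eq_sum_range, h] at h2
    have h3 : (minpoly ℚ β).coeff 2 = 1 := by
      have := (minpoly.monic hint).coeff_natDegree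
      rwa [h] at this
    simp only [Finset.sum_range_succ, Finset.sum_range_zero, h3, zero_add, one_smul, pow_zero,
      pow_one] at h2
    refine ⟨-(minpoly ℚ β).coeff 1, (minpoly ℚ β).coeff 0, ?_⟩
    simp only [Algebra.smul_def, mul_one, eq_ratCast] at h2
    push_cast
    linear_combination h2

theorem FinB_core (h1 : S_T23) (h2 : S_GS) (h3 : S_AlgB) (h4 : S_Pair) (β : ℂ)
    (hβ : IsAlgebraic ℚ β) (hirr : ∀ q : ℚ, β ≠ q) (t n : ℚ) (hq : β ^ 2 = t * β - n)
    (x y : ℂ) (hx : IsAlgebraic ℚ (Complex.exp x)) (hy : IsAlgebraic ℚ (Complex.exp y))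
    (hlin : ∀ a b : ℚ, (a : ℂ) * x + b * y = 0 → a = 0 ∧ b = 0)
    (hu : Alg x (Complex.exp (β * x))) (hv : Alg y (Complex.exp (β * y)))
    (huv : Alg (x + y) (Complex.exp (β * (x + y)))) : False := by
  have hx0 : x ≠ 0 := by
    intro h0
    have := (hlin 1 0 (by rw [h0]; simp)).1
    exact one_ne_zero this
  have hxt : Transcendental ℚ x := fun h => LW.transcendental_exp h hx0 hx
  have hne : ∀ p q : ℚ, y ≠ (p + q * β) * x := by
    intro p q hpq
    have hq0 : q ≠ 0 := by
      intro h0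
      have h5 := (hlin p (-1) (by rw [hpq, h0]; push_cast; ring)).2
      norm_num at h5
    have h6 : Complex.exp (q * β * x) = Complex.exp y * (Complex.exp (p * x))⁻¹ := by
      rw [← Complex.exp_neg, ← Complex.exp_add]
      congr 1
      rw [hpq]
      ring
    have h7 : IsAlgebraic ℚ (Complex.exp (q * β * x)) := by
      rw [h6]
      exact hy.mul (FinB_exp_rat p hx).inv
    refine h2 (q * β) x ?_ ?_ hx0 hx h7
    · exact (isAlgebraic_algebraMap (R := ℚ) (A := ℂ) q).mul hβ
    · intro r hr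
      apply hirr (q⁻¹ * r)
      have hq' : (q : ℂ) ≠ 0 := by exact_mod_cast hq0
      push_cast
      rw [← hr, ← mul_assoc, inv_mul_cancel₀ hq', one_mul]
  have hli : LinearIndependent ℚ ![x, y, β * x] := by
    rw [Fintype.linearIndependent_iff]
    intro g hg
    rw [Fin.sum_univ_three] at hg
    simp only [Algebra.smul_def, eq_ratCast] at hg
    change (g 0 : ℂ) * x + g 1 * y + g 2 * (β * x) = 0 at hg
    have hg1 : g 1 = 0 := by
      by_contra hne1
      have hc : (g 1 : ℂ) ≠ 0 := by exact_mod_cast hne1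
      apply hne (-(g 0) / g 1) (-(g 2) / g 1)
      push_cast
      field_simp
      linear_combination hg
    rw [hg1] at hg
    have hg2 : (g 0 : ℂ) + g 2 * β = 0 := by
      have : ((g 0 : ℂ) + g 2 * β) * x = 0 := by
        push_cast at hg
        linear_combination hg
      exact (mul_eq_zero.mp this).resolve_right hx0
    have hg3 : g 2 = 0 := by
      by_contra hne2
      have hc : (g 2 : ℂ) ≠ 0 := by exact_mod_cast hne2
      apply hirr (-(g 0) / g 2)
      push_cast
      field_simp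
      linear_combination hg2
    rw [hg3] at hg2
    have hg4 : g 0 = 0 := by
      have : (g 0 : ℂ) = 0 := by simpa using hg2
      exact_mod_cast this
    intro i
    fin_cases i
    · exact hg4
    · exact hg1
    · exact hg3
  have hnot : ¬ Alg x y := by
    intro hxy
    have hvx : Alg x (Complex.exp (β * y)) := FinB_trans hxy hv
    refine h1 x β ![x, y, β * x] hxt hirr hli (FinB_rat hβ) ?_ ?_ ?_
    · intro j
      fin_cases j
      · exact FinB_self x
      · exact hxy
      · exact FinB_algmul (FinB_rat hβ) (FinB_self x)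
    · intro j
      fin_cases j
      · exact FinB_rat hx
      · exact FinB_rat hy
      · exact hu
    · intro j
      fin_cases j
      · exact hu
      · exact hvx
      · have h8 : Complex.exp (β * (β * x)) =
            Complex.exp (t * (β * x)) * (Complex.exp (n * x))⁻¹ := by
          rw [← Complex.exp_neg, ← Complex.exp_add]
          congr 1
          linear_combination x * hq
        change Alg x (Complex.exp (β * (β * x)))
        rw [h8]
        exact FinB_algmul (FinB_exp_rat t hu) (FinB_rat (FinB_exp_rat n hx).inv)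
  have hai : AlgebraicIndependent ℚ ![x, y] := (h4 x y hxt).mpr hnot
  have huv' : Alg (x + y) (Complex.exp (β * x) * Complex.exp (β * y)) := by
    rw [← Complex.exp_add, ← mul_add]
    exact huv
  have h9 := h3 x y _ _ hai (Complex.exp_ne_zero _) (Complex.exp_ne_zero _) hu hv huv'
  exact h2 β x hβ hirr hx0 hx h9

theorem FinB_pairlin {v w : ℂ} (h : LinearIndependent ℚ ![v, w]) (a b : ℚ)
    (hab : (a : ℂ) * v + b * w = 0) : a = 0 ∧ b = 0 := by
  rw [Fintype.linearIndependent_iff] at h
  have h1 := h ![a, b] (by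
    rw [Fin.sum_univ_two]
    simp only [Matrix.cons_val_zero, Matrix.cons_val_one, Algebra.smul_def, eq_ratCast]
    exact hab)
  exact ⟨h1 0, h1 1⟩

theorem FinB_part1 (h1 : S_T23) (h2 : S_GS) (h3 : S_AlgB) (h4 : S_Pair) (β : ℂ)
    (hd : (minpoly ℚ β).natDegree = 2) (l : Fin 3 → ℂ)
    (hl : ∀ i, IsAlgebraic ℚ (Complex.exp (l i)))
    (hpair : ∀ i j, i ≠ j → LinearIndependent ℚ ![l i, l j]) (hdep : ¬ LinearIndependent ℚ l) :
    ∃ i, AlgebraicIndependent ℚ ![l i, Complex.exp (β * l i)] := by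
  obtain ⟨hβ, hirr, t, n, hq⟩ := FinB_quad β hd
  by_contra hcon
  push Not at hcon
  have hl0 : ∀ i, l i ≠ 0 := by
    intro i h0
    obtain ⟨j, hj⟩ : ∃ j : Fin 3, i ≠ j := by
      fin_cases i
      · exact ⟨1, by decide⟩
      · exact ⟨0, by decide⟩
      · exact ⟨0, by decide⟩
    have := (FinB_pairlin (hpair i j hj) 1 0 (by rw [h0]; simp)).1
    exact one_ne_zero this
  have hlt : ∀ i, Transcendental ℚ (l i) := fun i h => LW.transcendental_exp h (hl0 i) (hl i)
  have halg : ∀ i, Alg (l i) (Complex.exp (β * l i)) := by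
    intro i
    by_contra h
    exact hcon i ((h4 _ _ (hlt i)).mpr h)
  rw [Fintype.linearIndependent_iff] at hdep
  push Not at hdep
  obtain ⟨g, hg, i0, hi0⟩ := hdep
  rw [Fin.sum_univ_three] at hg
  simp only [Algebra.smul_def, eq_ratCast] at hg
  have hg2 : g 2 ≠ 0 := by
    intro h0
    rw [h0] at hg
    have h5 := FinB_pairlin (hpair 0 1 (by decide)) (g 0) (g 1) (by
      push_cast at hg
      linear_combination hg)
    apply hi0
    fin_cases i0
    · exact h5.1
    · exact h5.2
    · exact h0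
  have hg0 : g 0 ≠ 0 := by
    intro h0
    rw [h0] at hg
    have h5 := FinB_pairlin (hpair 1 2 (by decide)) (g 1) (g 2) (by
      push_cast at hg
      linear_combination hg)
    exact hg2 h5.2
  have hg1 : g 1 ≠ 0 := by
    intro h0
    rw [h0] at hg
    have h5 := FinB_pairlin (hpair 0 2 (by decide)) (g 0) (g 2) (by
      push_cast at hg
      linear_combination hg)
    exact hg2 h5.2
  have hc2 : (g 2 : ℂ) ≠ 0 := by exact_mod_cast hg2
  set a : ℚ := -(g 0) / g 2 with ha
  set b : ℚ := -(g 1) / g 2 with hb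
  have ha0 : a ≠ 0 := by
    rw [ha]
    exact div_ne_zero (neg_ne_zero.mpr hg0) hg2
  have hb0 : b ≠ 0 := by
    rw [hb]
    exact div_ne_zero (neg_ne_zero.mpr hg1) hg2
  have hsum : (a : ℂ) * l 0 + b * l 1 = l 2 := by
    rw [ha, hb]
    push_cast
    field_simp
    linear_combination -hg
  have hexp : ∀ (q : ℚ) (i : Fin 3), q ≠ 0 → Alg (q * l i) (Complex.exp (β * (q * l i))) := by
    intro q i hq0
    have h6 : β * (q * l i) = q * (β * l i) := by ring
    rw [h6]
    exact FinB_smul q hq0 (FinB_exp_rat q (halg i))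
  refine FinB_core h1 h2 h3 h4 β hβ hirr t n hq (a * l 0) (b * l 1) (FinB_exp_rat a (hl 0))
    (FinB_exp_rat b (hl 1)) ?_ (hexp a 0 ha0) (hexp b 1 hb0) ?_
  · intro p q hpq
    have h7 := FinB_pairlin (hpair 0 1 (by decide)) (p * a) (q * b) (by
      push_cast
      linear_combination hpq)
    exact ⟨(mul_eq_zero.mp h7.1).resolve_right ha0, (mul_eq_zero.mp h7.2).resolve_right hb0⟩
  · rw [hsum]
    exact halg 2

theorem FinB_two {α : Type} (S : Set α)
    (h : ∀ a ∈ S, ∀ b ∈ S, ∀ c ∈ S, a ≠ b → a ≠ c → b ≠ c → False) : S.encard ≤ 2 := by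
  by_contra hcon
  push Not at hcon
  have h3 : (3 : ℕ∞) ≤ S.encard := by
    have := Order.add_one_le_of_lt hcon
    norm_num at this
    exact this
  obtain ⟨T, hT, hT3⟩ := Set.exists_subset_encard_eq h3
  rw [Set.encard_eq_three] at hT3
  obtain ⟨a, b, c, hab, hac, hbc, rfl⟩ := hT3
  exact h a (hT (by simp)) b (hT (by simp)) c (hT (by simp)) hab hac hbc

theorem FinB_indep (l : ℂ) (hroot : ∀ n : ℕ, 0 < n → Complex.exp l ^ n ≠ 1) (k k' : ℤ)
    (hk : k ≠ k') (p q : ℤ)
    (h : (p : ℂ) * (l + 2 * Real.pi * Complex.I * k) + q * (l + 2 * Real.pi * Complex.I * k') = 0) :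
    p = 0 ∧ q = 0 := by
  have h1 : ((p + q : ℤ) : ℂ) * l = ((-(p * k + q * k') : ℤ) : ℂ) * (2 * Real.pi * Complex.I) := by
    push_cast
    linear_combination h
  have h2 : Complex.exp l ^ (p + q) = 1 := by
    rw [← Complex.exp_int_mul, h1, Complex.exp_int_mul, Complex.exp_two_pi_mul_I, one_zpow]
  have h3 : p + q = 0 := by
    by_contra hne
    rcases lt_or_gt_of_ne hne with hlt | hgt
    · have h4 : Complex.exp l ^ (-(p + q)).toNat = 1 := by
        rw [← zpow_natCast, Int.toNat_of_nonneg (by omega), zpow_neg, h2, inv_one]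
      exact hroot _ (by omega) h4
    · have h4 : Complex.exp l ^ (p + q).toNat = 1 := by
        rw [← zpow_natCast, Int.toNat_of_nonneg (by omega), h2]
      exact hroot _ (by omega) h4
  have h5 : q = -p := by omega
  subst h5
  have h6 : (p : ℂ) * ((2 * Real.pi * Complex.I) * ((k : ℂ) - k')) = 0 := by
    push_cast at h
    linear_combination h
  have h7 : (2 * Real.pi * Complex.I : ℂ) ≠ 0 := by
    simp [Real.pi_ne_zero]
  have h8 : ((k : ℂ) - k') ≠ 0 := by
    rw [sub_ne_zero]
    exact_mod_cast hk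
  have h9 : (p : ℂ) = 0 := by
    rcases mul_eq_zero.mp h6 with h | h
    · exact h
    · exact absurd h (mul_ne_zero h7 h8)
  have h10 : p = 0 := by exact_mod_cast h9
  exact ⟨h10, by omega⟩

theorem FinB_indepQ (l : ℂ) (hroot : ∀ n : ℕ, 0 < n → Complex.exp l ^ n ≠ 1) (k k' : ℤ)
    (hk : k ≠ k') :
    LinearIndependent ℚ ![l + 2 * Real.pi * Complex.I * k, l + 2 * Real.pi * Complex.I * k'] := by
  rw [Fintype.linearIndependent_iff]
  intro g hg
  rw [Fin.sum_univ_two] at hg
  simp only [Matrix.cons_val_zero, Matrix.cons_val_one, Algebra.smul_def, eq_ratCast] at hg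
  have e0 : (g 0 : ℂ) * (g 0).den = (g 0).num := by exact_mod_cast Rat.mul_den_eq_num (g 0)
  have e1 : (g 1 : ℂ) * (g 1).den = (g 1).num := by exact_mod_cast Rat.mul_den_eq_num (g 1)
  have h1 := FinB_indep l hroot k k' hk ((g 0).num * (g 1).den) ((g 1).num * (g 0).den) (by
    push_cast
    rw [← e0, ← e1]
    linear_combination ((g 0).den : ℂ) * (g 1).den * hg)
  have h2 : (g 0).num = 0 := by
    rcases mul_eq_zero.mp h1.1 with h | h
    · exact h
    · have := (g 1).den_pos
      omega
  have h3 : (g 1).num = 0 := by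
    rcases mul_eq_zero.mp h1.2 with h | h
    · exact h
    · have := (g 0).den_pos
      omega
  intro i
  fin_cases i
  · exact Rat.num_eq_zero.mp h2
  · exact Rat.num_eq_zero.mp h3

theorem pr_FinB (h1 : S_T23) (h2 : S_GS) (h3 : S_AlgB) (h4 : S_Pair) : S_FinalB := by
  intro β hd
  refine ⟨fun l hl hpair hdep => FinB_part1 h1 h2 h3 h4 β hd l hl hpair hdep, ?_⟩
  intro l hl hroot
  apply FinB_two
  intro a ha b hb c hc hab hac hbc
  set k : Fin 3 → ℤ := ![a, b, c] with hk
  have hkinj : ∀ i j, i ≠ j → k i ≠ k j := by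
    intro i j hij
    fin_cases i <;> fin_cases j <;> simp [hk] at hij ⊢ <;>
      first
      | exact hab
      | exact hac
      | exact hbc
      | exact hab.symm
      | exact hac.symm
      | exact hbc.symm
  have hbad : ∀ i, ¬ AlgebraicIndependent ℚ ![l + 2 * Real.pi * Complex.I * (k i : ℂ),
      Complex.exp (β * (l + 2 * Real.pi * Complex.I * (k i : ℂ)))] := by
    intro i
    fin_cases i
    · exact ha
    · exact hb
    · exact hc
  have e1 : ∀ i : Fin 3, IsAlgebraic ℚ
      (Complex.exp ((fun i => l + 2 * Real.pi * Complex.I * (k i : ℂ)) i)) := by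
    intro i
    have h5 : Complex.exp (l + 2 * Real.pi * Complex.I * (k i : ℂ)) = Complex.exp l := by
      rw [Complex.exp_add]
      have h6 : (2 * Real.pi * Complex.I * (k i : ℂ)) = (k i : ℂ) * (2 * Real.pi * Complex.I) := by
        ring
      rw [h6, Complex.exp_int_mul, Complex.exp_two_pi_mul_I, one_zpow, mul_one]
    change IsAlgebraic ℚ (Complex.exp (l + 2 * Real.pi * Complex.I * (k i : ℂ)))
    rw [h5]
    exact hl
  have e2 : ∀ i j : Fin 3, i ≠ j → LinearIndependent ℚ
      ![(fun i => l + 2 * Real.pi * Complex.I * (k i : ℂ)) i,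
        (fun i => l + 2 * Real.pi * Complex.I * (k i : ℂ)) j] := by
    intro i j hij
    exact FinB_indepQ l hroot (k i) (k j) (hkinj i j hij)
  have e3 : ¬ LinearIndependent ℚ (fun i : Fin 3 => l + 2 * Real.pi * Complex.I * (k i : ℂ)) := by
    rw [Fintype.linearIndependent_iff]
    push Not
    refine ⟨![(b - c : ℤ), (c - a : ℤ), (a - b : ℤ)], ?_, 2, ?_⟩
    · rw [Fin.sum_univ_three]
      simp only [Algebra.smul_def, eq_ratCast, hk]
      change (((b - c : ℤ) : ℚ) : ℂ) * (l + 2 * Real.pi * Complex.I * (a : ℂ)) +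
        (((c - a : ℤ) : ℚ) : ℂ) * (l + 2 * Real.pi * Complex.I * (b : ℂ)) +
        (((a - b : ℤ) : ℚ) : ℂ) * (l + 2 * Real.pi * Complex.I * (c : ℂ)) = 0
      push_cast
      ring
    · change ((a - b : ℤ) : ℚ) ≠ 0
      have : (a - b : ℤ) ≠ 0 := sub_ne_zero.mpr hab
      exact_mod_cast this
  obtain ⟨i, hi⟩ := FinB_part1 h1 h2 h3 h4 β hd _ e1 e2 e3
  exact hbad i hi

end Pool.Agent.Work.MP_327059_nt.AA
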